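import Mathlib

set_option autoImplicit false

namespace Pool.Agent.Helper35.Fibre

open Subgroup
open scoped commutatorElement

/-- In a finitely generated group the commutator subgroup is finitely normally generated. -/
lemma commutator_fng {G : Type*} [Group G] (S : Set G) (hS : S.Finite) (hc : closure S = ⊤) :
    (_root_.commutator G).IsFinitelyNormallyGenerated := by
  refine ⟨Set.image2 (fun x y => ⁅x, y⁆) S S, hS.image2 _ hS, le_antisymm ?_ ?_⟩
  · refine normalClosure_le_normal ?_
    rintro _ ⟨x, _, y, _, rfl⟩
    exact commutator_mem_commutator (mem_top x) (mem_top y)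
  · set N := normalClosure (Set.image2 (fun x y => ⁅x, y⁆) S S) with hN
    -- work in the quotient
    have hcen : ∀ x ∈ S, QuotientGroup.mk' N x ∈ center (G ⧸ N) := by
      intro x hx
      rw [mem_center_iff]
      have h1 : (⊤ : Subgroup (G ⧸ N)) ≤ centralizer {QuotientGroup.mk' N x} := by
        have h2 : (⊤ : Subgroup (G ⧸ N)) = closure (QuotientGroup.mk' N '' S) := by
          rw [← MonoidHom.map_closure, hc, ← MonoidHom.range_eq_map, eq_comm,
            MonoidHom.range_eq_top]
          exact QuotientGroup.mk'_surjective N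
        rw [h2, closure_le]
        rintro _ ⟨y, hy, rfl⟩
        rw [SetLike.mem_coe, mem_centralizer_singleton_iff]
        have h4 : ⁅x, y⁆ ∈ N := subset_normalClosure ⟨x, hx, y, hy, rfl⟩
        have h5 : QuotientGroup.mk' N ⁅x, y⁆ = 1 := (QuotientGroup.eq_one_iff _).2 h4
        rw [map_commutatorElement, commutatorElement_eq_one_iff_mul_comm] at h5
        exact h5.symm
      intro g
      have := h1 (mem_top g)
      rw [mem_centralizer_singleton_iff] at this
      exact this
    have htop : (⊤ : Subgroup (G ⧸ N)) ≤ center (G ⧸ N) := by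
      have h2 : (⊤ : Subgroup (G ⧸ N)) = closure (QuotientGroup.mk' N '' S) := by
        rw [← MonoidHom.map_closure, hc, ← MonoidHom.range_eq_map, eq_comm,
          MonoidHom.range_eq_top]
        exact QuotientGroup.mk'_surjective N
      rw [h2, closure_le]
      rintro _ ⟨x, hx, rfl⟩
      exact hcen x hx
    rw [_root_.commutator_def, commutator_le]
    intro a _ b _
    have h8 : QuotientGroup.mk' N ⁅a, b⁆ = 1 := by
      rw [map_commutatorElement, commutatorElement_eq_one_iff_mul_comm]
      have := htop (mem_top (QuotientGroup.mk' N b))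
      rw [mem_center_iff] at this
      exact this _
    exact (QuotientGroup.eq_one_iff _).1 h8

/-- The kernel of a homomorphism from a finitely generated group to a commutative group is
finitely normally generated. -/
lemma ker_fng {G A : Type*} [Group G] [CommGroup A] (S : Set G) (hS : S.Finite)
    (hc : closure S = ⊤) (f : G →* A) : f.ker.IsFinitelyNormallyGenerated := by
  have hG : Group.FG G := Group.fg_iff.2 ⟨S, hc, hS⟩
  have h1 : f.ker = (Abelianization.lift f).ker.comap Abelianization.of := by
    rw [MonoidHom.comap_ker]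
    congr 1
  rw [h1]
  refine Subgroup.IsFinitelyNormallyGenerated.comap ?_ (QuotientGroup.mk'_surjective _) ?_
  · have h2 : Group.FG (Abelianization G) :=
      Group.fg_of_surjective (f := Abelianization.of) (QuotientGroup.mk'_surjective _)
    have h3 : AddGroup.FG (Additive (Abelianization G)) := AddGroup.fg_of_group_fg
    have h4 : Module.Finite ℤ (Additive (Abelianization G)) := Module.Finite.iff_addGroup_fg.2 h3
    have h5 : IsNoetherian ℤ (Additive (Abelianization G)) :=
      isNoetherian_of_isNoetherianRing_of_finite ℤ _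
    have h6 : (Abelianization.lift f).ker.FG := by
      rw [Subgroup.fg_iff_add_fg]
      have h7 := h5.noetherian (AddSubgroup.toIntSubmodule (toAddSubgroup (Abelianization.lift f).ker))
      rw [Submodule.fg_iff_addSubgroup_fg] at h7
      exact h7
    have h8 : Group.FG (Abelianization.lift f).ker := (Group.fg_iff_subgroup_fg _).2 h6
    exact Subgroup.IsFinitelyNormallyGenerated.of_FG _
  · rw [Abelianization.ker_of]
    exact commutator_fng S hS hc

/-- Fibre products of free groups of finite rank over a commutative group. -/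
lemma fibre_fg {X Y A : Type*} [Finite X] [Finite Y] [CommGroup A]
    (f : FreeGroup X →* A) (g : FreeGroup Y →* A)
    (hf : ∀ x, ∃ v, g v = f (FreeGroup.of x)) (hg : ∀ y, ∃ w, f w = g (FreeGroup.of y)) :
    (MonoidHom.eqLocus (f.comp (MonoidHom.fst (FreeGroup X) (FreeGroup Y)))
      (g.comp (MonoidHom.snd (FreeGroup X) (FreeGroup Y)))).FG := by
  choose xh hxh using hf
  choose yh hyh using hg
  obtain ⟨R, hR, hRk⟩ := ker_fng (Set.range (FreeGroup.of : Y → FreeGroup Y))
    (Set.finite_range _) (FreeGroup.closure_range_of Y) g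
  let ν : FreeGroup X →* FreeGroup X × FreeGroup Y :=
    FreeGroup.lift fun x => (FreeGroup.of x, xh x)
  let μ : FreeGroup Y →* FreeGroup X × FreeGroup Y :=
    FreeGroup.lift fun y => (yh y, FreeGroup.of y)
  let S : Set (FreeGroup X × FreeGroup Y) :=
    Set.range (fun x => (FreeGroup.of x, xh x)) ∪ Set.range (fun y => (yh y, FreeGroup.of y)) ∪
      (fun r => ((1 : FreeGroup X), r)) '' R
  have hS : S.Finite := ((Set.finite_range _).union (Set.finite_range _)).union (hR.image _)
  have hν1 : (MonoidHom.fst _ _).comp ν = MonoidHom.id _ := by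
    ext x; simp [ν]
  have hν2 : (g.comp (MonoidHom.snd _ _)).comp ν = f := by
    ext x; simp [ν, hxh]
  have hμ2 : (MonoidHom.snd _ _).comp μ = MonoidHom.id _ := by
    ext x; simp [μ]
  have hμ1 : (f.comp (MonoidHom.fst _ _)).comp μ = g := by
    ext x; simp [μ, hyh]
  have hνS : ∀ w, ν w ∈ closure S := by
    intro w
    have : ν.range ≤ closure S := by
      rw [FreeGroup.range_lift_eq_closure]
      exact closure_mono (Set.subset_union_of_subset_left Set.subset_union_left _)
    exact this ⟨w, rfl⟩
  have hμS : ∀ w, μ w ∈ closure S := by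
    intro w
    have : μ.range ≤ closure S := by
      rw [FreeGroup.range_lift_eq_closure]
      exact closure_mono (Set.subset_union_of_subset_left Set.subset_union_right _)
    exact this ⟨w, rfl⟩
  have hker : ∀ v, g v = 1 → ((1 : FreeGroup X), v) ∈ closure S := by
    let C : Subgroup (FreeGroup Y) := (closure S).comap (MonoidHom.inr _ _)
    have hCn : C.Normal := by
      refine ⟨fun r hr v => ?_⟩
      have h1 : ((1 : FreeGroup X), v * r * v⁻¹) = μ v * (1, r) * (μ v)⁻¹ := by
        have h2 : (μ v).2 = v := DFunLike.congr_fun hμ2 v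
        ext1
        · simp
        · simp [h2]
      change ((1 : FreeGroup X), v * r * v⁻¹) ∈ closure S
      rw [h1]
      exact mul_mem (mul_mem (hμS v) hr) (inv_mem (hμS v))
    have hRC : g.ker ≤ C := by
      rw [← hRk]
      refine normalClosure_le_normal ?_
      intro r hr
      exact subset_closure (Or.inr ⟨r, hr, rfl⟩)
    intro v hv
    exact hRC hv
  refine (Subgroup.fg_iff _).2 ⟨S, le_antisymm ?_ ?_, hS⟩
  · rw [closure_le]
    rintro _ ((⟨x, rfl⟩ | ⟨y, rfl⟩) | ⟨r, hr, rfl⟩)
    · exact (hxh x).symm
    · exact hyh y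
    · have : r ∈ g.ker := by rw [← hRk]; exact subset_normalClosure hr
      change f 1 = g r
      rw [map_one, MonoidHom.mem_ker.1 this]
  · rintro ⟨w, v⟩ hwv
    have h1 : f w = g v := hwv
    have h2 : (ν w).1 = w := DFunLike.congr_fun hν1 w
    have h3 : g (ν w).2 = f w := DFunLike.congr_fun hν2 w
    have h4 := hker ((ν w).2⁻¹ * v) (by rw [map_mul, map_inv, h3, h1, inv_mul_cancel])
    have h5 : ((w, v) : FreeGroup X × FreeGroup Y) = ν w * (1, (ν w).2⁻¹ * v) := by
      ext1
      · simp [h2]
      · simp
    rw [h5]
    exact mul_mem (hνS w) h4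

end Pool.Agent.Helper35.Fibre
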