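import Mathlib

set_option autoImplicit false

namespace Pool.Agent.Helper35.FreeAffine

open Subgroup

/-- A homomorphism from a finitely generated group to the additive group `ℚ` misses some
`2^{-n}`. -/
lemma exists_not_mem_range {K : Type*} [Group K] (hK : Group.FG K)
    (D : K →* Multiplicative ℚ) : ∃ n : ℕ, ∀ g, D g ≠ Multiplicative.ofAdd ((2 : ℚ)⁻¹ ^ n) := by
  classical
  obtain ⟨S, hS, hfin⟩ := Group.fg_iff.1 hK
  -- common denominator
  obtain ⟨d, hd, hdS⟩ : ∃ d : ℕ, 0 < d ∧ ∀ g ∈ S, ∃ z : ℤ, (Multiplicative.toAdd (D g)) * d = z := by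
    refine ⟨∏ g ∈ hfin.toFinset, (Multiplicative.toAdd (D g)).den,
      Finset.prod_pos fun g _ => (Multiplicative.toAdd (D g)).den_pos, fun g hg => ?_⟩
    have hg' : g ∈ hfin.toFinset := hfin.mem_toFinset.2 hg
    rw [← Finset.mul_prod_erase _ _ hg']
    refine ⟨(Multiplicative.toAdd (D g)).num *
      ((∏ x ∈ hfin.toFinset.erase g, (Multiplicative.toAdd (D x)).den : ℕ) : ℤ), ?_⟩
    push_cast
    rw [← mul_assoc, Rat.mul_den_eq_num]
  have hall : ∀ g : K, ∃ z : ℤ, (Multiplicative.toAdd (D g)) * d = z := by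
    intro g
    have hg : g ∈ closure S := by rw [hS]; exact mem_top g
    induction hg using closure_induction with
    | mem x hx => exact hdS x hx
    | one => exact ⟨0, by simp⟩
    | mul x y _ _ hx hy =>
      obtain ⟨a, ha⟩ := hx
      obtain ⟨b, hb⟩ := hy
      exact ⟨a + b, by rw [map_mul, toAdd_mul, add_mul, ha, hb]; push_cast; ring⟩
    | inv x _ hx =>
      obtain ⟨a, ha⟩ := hx
      exact ⟨-a, by rw [map_inv, toAdd_inv, neg_mul, ha]; push_cast; ring⟩
  refine ⟨d, fun g hg => ?_⟩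
  obtain ⟨z, hz⟩ := hall g
  rw [hg, toAdd_ofAdd, inv_pow, inv_mul_eq_div, div_eq_iff (by positivity)] at hz
  have h1 : (d : ℤ) = z * 2 ^ d := by exact_mod_cast hz
  have h2 : d < 2 ^ d := Nat.lt_two_pow_self
  have h3 : (0 : ℤ) < z := by
    by_contra hneg
    push Not at hneg
    have : z * 2 ^ d ≤ 0 := mul_nonpos_of_nonpos_of_nonneg hneg (by positivity)
    omega
  have h4 : (2 : ℤ) ^ d ≤ z * 2 ^ d := by
    nlinarith [pow_pos (show (0 : ℤ) < 2 by norm_num) d]
  have h5 : (d : ℤ) < 2 ^ d := by exact_mod_cast h2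
  omega

/-- The affine permutation `x ↦ 2^n x + r`. -/
def aff (n : ℤ) (r : ℚ) : Equiv.Perm ℚ where
  toFun x := 2 ^ n * x + r
  invFun x := 2 ^ (-n) * (x - r)
  left_inv x := by
    change 2 ^ (-n) * (2 ^ n * x + r - r) = x
    rw [add_sub_cancel_right, ← mul_assoc, ← zpow_add₀ (by norm_num)]; simp
  right_inv x := by
    change 2 ^ n * (2 ^ (-n) * (x - r)) + r = x
    rw [← mul_assoc, ← zpow_add₀ (by norm_num)]; simp

variable {X : Type*} (n : X → ℤ) (r : X → ℚ)

/-- The affine action. -/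
def θ : FreeGroup X →* Equiv.Perm ℚ := FreeGroup.lift fun x => aff (n x) (r x)

/-- The exponent. -/
def χ : FreeGroup X →* Multiplicative ℤ := FreeGroup.lift fun x => Multiplicative.ofAdd (n x)

lemma θ_apply (w : FreeGroup X) : ∀ x : ℚ,
    θ n r w x = 2 ^ (Multiplicative.toAdd (χ n w)) * x + θ n r w 0 := by
  refine FreeGroup.induction_on w ?_ ?_ ?_ ?_
  · simp
  · intro a x
    simp [θ, χ, aff]
  · intro a _ x
    simp only [θ, χ, aff, map_inv, FreeGroup.lift_apply_of, toAdd_inv, toAdd_ofAdd]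
    change 2 ^ (-n a) * (x - r a) = 2 ^ (-n a) * x + 2 ^ (-n a) * (0 - r a)
    ring
  · intro v w hv hw x
    rw [map_mul, map_mul, Equiv.Perm.mul_apply, Equiv.Perm.mul_apply, toAdd_mul, hv, hw,
      zpow_add₀ (by norm_num), hv (θ n r w 0)]
    ring

/-- translation part on a group with trivial exponents -/
def transl {K : Type*} [Group K] (π : K →* FreeGroup X) (hπ : ∀ k, χ n (π k) = 1) :
    K →* Multiplicative ℚ where
  toFun k := Multiplicative.ofAdd (θ n r (π k) 0)
  map_one' := by simp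
  map_mul' a b := by
    rw [map_mul, map_mul, Equiv.Perm.mul_apply, θ_apply, hπ a, ← ofAdd_add]
    simp [add_comm]

lemma θ_conj (a b : X) (ha : n a = 1) (hb : n b = 0) (ha' : r a = 0) (hb' : r b = 1) (m : ℕ) :
    θ n r ((FreeGroup.of a)⁻¹ ^ m * FreeGroup.of b * FreeGroup.of a ^ m) 0 = (2 : ℚ)⁻¹ ^ m := by
  have h1 : ∀ m : ℕ, ∀ x, (θ n r (FreeGroup.of a) ^ m) x = 2 ^ m * x := by
    intro m
    induction m with
    | zero => simp
    | succ m ih =>
      intro x
      rw [pow_succ', Equiv.Perm.mul_apply, ih]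
      simp only [θ, FreeGroup.lift_apply_of, aff, ha, ha', Equiv.coe_fn_mk, zpow_one]
      ring
  have h2 : ∀ x, (θ n r (FreeGroup.of b)) x = x + 1 := by
    intro x
    simp [θ, aff, hb, hb']
  rw [map_mul, map_mul, map_pow, map_pow, map_inv, Equiv.Perm.mul_apply, Equiv.Perm.mul_apply, h1,
    h2, inv_pow, Equiv.Perm.inv_eq_iff_eq, h1, mul_zero, zero_add, inv_pow,
    mul_inv_cancel₀ (by positivity)]

/-- Key: a group `K` mapping to a free group with trivial exponents and hitting all the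
`a^{-m} b a^m` is not finitely generated. -/
lemma not_fg {K : Type*} [Group K] (π : K →* FreeGroup X) (n : X → ℤ)
    (hπ : ∀ k, χ n (π k) = 1) (a b : X) (ha : n a = 1) (hb : n b = 0)
    (h : ∀ m : ℕ, ∃ k, π k = (FreeGroup.of a)⁻¹ ^ m * FreeGroup.of b * FreeGroup.of a ^ m) :
    ¬ Group.FG K := by
  classical
  intro hK
  have hab : a ≠ b := by rintro rfl; rw [ha] at hb; exact one_ne_zero hb
  let r : X → ℚ := fun x => if x = b then 1 else 0
  obtain ⟨m, hm⟩ := exists_not_mem_range hK (transl n r π hπ)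
  obtain ⟨k, hk⟩ := h m
  refine hm k ?_
  change Multiplicative.ofAdd (θ n r (π k) 0) = _
  rw [hk, θ_conj n r a b ha hb (by simp [r, hab]) (by simp [r]) m]

/-- The free group of rank 2 contains free groups of all countable ranks. -/
lemma exists_embedding (Y : Type) [Countable Y] :
    ∃ f : FreeGroup Y →* FreeGroup (Fin 2), Function.Injective f := by
  let n : Fin 2 → ℤ := ![1, 0]
  let K := (χ n).ker
  have hK : ¬ Group.FG K := by
    refine not_fg K.subtype n (fun k => k.2) 0 1 rfl rfl fun m => ?_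
    refine ⟨⟨(FreeGroup.of 0)⁻¹ ^ m * FreeGroup.of 1 * FreeGroup.of 0 ^ m, ?_⟩, rfl⟩
    rw [MonoidHom.mem_ker]
    simp [χ, n]
  have hinf : Infinite (IsFreeGroup.Generators K) := by
    by_contra hfin
    rw [not_infinite_iff_finite] at hfin
    apply hK
    have : Group.FG (FreeGroup (IsFreeGroup.Generators K)) := inferInstance
    exact Group.fg_of_surjective (f := (IsFreeGroup.mulEquiv K).toMonoidHom)
      (IsFreeGroup.mulEquiv K).surjective
  obtain ⟨f, hf⟩ := exists_injective_nat Y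
  let g := Infinite.natEmbedding (IsFreeGroup.Generators K)
  refine ⟨(K.subtype.comp (IsFreeGroup.mulEquiv K).toMonoidHom).comp
    (FreeGroup.map (g ∘ f)), ?_⟩
  intro a b hab
  exact FreeGroup.map_injective (g.injective.comp hf)
    ((IsFreeGroup.mulEquiv K).injective (Subtype.val_injective hab))

end Pool.Agent.Helper35.FreeAffine
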