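import Mathlib

set_option autoImplicit false

namespace Pool.Agent.Helper35.FreeProdBasic

open Subgroup
open scoped commutatorElement

/-- The product of two free groups of finite rank is finitely presented. -/
lemma fp_prod (X Y : Type) [Finite X] [Finite Y] :
    Group.IsFinitelyPresented (FreeGroup X × FreeGroup Y) := by
  let φ : FreeGroup (X ⊕ Y) →* FreeGroup X × FreeGroup Y :=
    FreeGroup.lift (Sum.elim (fun x => (FreeGroup.of x, 1)) (fun y => (1, FreeGroup.of y)))
  have hφx : ∀ x, φ (FreeGroup.of (Sum.inl x)) = (FreeGroup.of x, 1) := fun x => by simp [φ]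
  have hφy : ∀ y, φ (FreeGroup.of (Sum.inr y)) = (1, FreeGroup.of y) := fun x => by simp [φ]
  let R : Set (FreeGroup (X ⊕ Y)) := Set.range fun p : X × Y =>
    ⁅(FreeGroup.of (Sum.inl p.1) : FreeGroup (X ⊕ Y)), FreeGroup.of (Sum.inr p.2)⁆
  let N := normalClosure R
  let ix : FreeGroup X →* FreeGroup (X ⊕ Y) ⧸ N :=
    (QuotientGroup.mk' N).comp (FreeGroup.map Sum.inl)
  let iy : FreeGroup Y →* FreeGroup (X ⊕ Y) ⧸ N :=
    (QuotientGroup.mk' N).comp (FreeGroup.map Sum.inr)
  have hcomm : ∀ v w, Commute (ix v) (iy w) := by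
    intro v w
    have h1 : ∀ (x : X) (y : Y), Commute (ix (FreeGroup.of x)) (iy (FreeGroup.of y)) := by
      intro x y
      have h2 : QuotientGroup.mk' N
          ⁅(FreeGroup.of (Sum.inl x) : FreeGroup (X ⊕ Y)), FreeGroup.of (Sum.inr y)⁆ = 1 :=
        (QuotientGroup.eq_one_iff _).2 (subset_normalClosure ⟨(x, y), rfl⟩)
      rw [map_commutatorElement, commutatorElement_eq_one_iff_commute] at h2
      simpa [ix, iy] using h2
    have h3 : ∀ (x : X), Commute (ix (FreeGroup.of x)) (iy w) := by
      intro x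
      refine FreeGroup.induction_on w ?_ ?_ ?_ ?_
      · rw [map_one]; exact Commute.one_right _
      · exact h1 x
      · intro y hy
        rw [map_inv]
        exact hy.inv_right
      · intro a b ha hb
        rw [map_mul]
        exact ha.mul_right hb
    refine FreeGroup.induction_on v ?_ ?_ ?_ ?_
    · rw [map_one]; exact Commute.one_left _
    · exact h3
    · intro y hy
      rw [map_inv]
      exact hy.inv_left
    · intro a b ha hb
      rw [map_mul]
      exact ha.mul_left hb
  let ψ : FreeGroup X × FreeGroup Y →* FreeGroup (X ⊕ Y) ⧸ N := MonoidHom.noncommCoprod ix iy hcomm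
  have hψφ : ψ.comp φ = QuotientGroup.mk' N := by
    ext s
    rcases s with x | y
    · simp [hφx, ψ, ix]
    · simp [hφy, ψ, iy]
  have hker : φ.ker = N := by
    apply le_antisymm
    · intro w hw
      have h1 := DFunLike.congr_fun hψφ w
      rw [MonoidHom.comp_apply, MonoidHom.mem_ker.1 hw, map_one] at h1
      exact (QuotientGroup.eq_one_iff _).1 h1.symm
    · refine normalClosure_le_normal ?_
      rintro _ ⟨⟨x, y⟩, rfl⟩
      rw [SetLike.mem_coe, MonoidHom.mem_ker, map_commutatorElement, hφx, hφy,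
        commutatorElement_eq_one_iff_mul_comm]
      simp
  refine Group.IsFinitelyPresented.of_surjective φ ?_ ⟨R, Set.finite_range _, hker.symm⟩
  rintro ⟨v, w⟩
  refine ⟨FreeGroup.map Sum.inl v * FreeGroup.map Sum.inr w, ?_⟩
  have h1 : φ.comp (FreeGroup.map Sum.inl) = MonoidHom.inl (FreeGroup X) (FreeGroup Y) := by
    ext x <;> simp [hφx]
  have h2 : φ.comp (FreeGroup.map Sum.inr) = MonoidHom.inr (FreeGroup X) (FreeGroup Y) := by
    ext x <;> simp [hφy]
  rw [map_mul]
  have h3 := DFunLike.congr_fun h1 v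
  have h4 := DFunLike.congr_fun h2 w
  rw [MonoidHom.comp_apply] at h3 h4
  rw [h3, h4]
  simp

/-- A commutative subgroup of a free group embeds into `ℤ`. -/
lemma exists_to_int {F : Type} [Group F] [IsFreeGroup F] (A : Subgroup F)
    (hA : ∀ a b : A, a * b = b * a) :
    ∃ f : A →* Multiplicative ℤ, Function.Injective f := by
  let e := IsFreeGroup.mulEquiv A
  have hsub : Subsingleton (IsFreeGroup.Generators A) := by
    refine ⟨fun x y => ?_⟩
    by_contra hne
    have h1 : FreeGroup.of x * FreeGroup.of y = FreeGroup.of y * FreeGroup.of x :=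
      e.injective (by rw [map_mul, map_mul]; exact hA _ _)
    -- map to a nonabelian group
    classical
    let f : IsFreeGroup.Generators A → Equiv.Perm (Fin 3) := fun z =>
      if z = x then Equiv.swap 0 1 else Equiv.swap 1 2
    have h2 := congrArg (FreeGroup.lift f) h1
    rw [map_mul, map_mul, FreeGroup.lift_apply_of, FreeGroup.lift_apply_of] at h2
    simp only [f, if_true, if_neg (Ne.symm hne)] at h2
    revert h2
    decide
  rcases isEmpty_or_nonempty (IsFreeGroup.Generators A) with hE | hE
  · refine ⟨1, fun v w _ => e.symm.injective (Subsingleton.elim _ _)⟩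
  · obtain ⟨x⟩ := hE
    have hu : Unique (IsFreeGroup.Generators A) := ⟨⟨x⟩, fun y => Subsingleton.elim y x⟩
    exact ⟨(e.symm.trans FreeGroup.mulEquivIntOfUnique).toMonoidHom,
      (e.symm.trans FreeGroup.mulEquivIntOfUnique).injective⟩

/-- `ℤ^3` does not embed into the product of two free groups. -/
lemma not_embed {F : Type} [Group F] [IsFreeGroup F] (f : Multiplicative (Fin 3 → ℤ) →* F × F) :
    ¬ Function.Injective f := by
  intro hf
  have key : ∀ p : F × F →* F, ∃ g : Multiplicative (Fin 3 → ℤ) →* Multiplicative ℤ,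
      ∀ x, g x = 1 → p (f x) = 1 := by
    intro p
    obtain ⟨g, hg⟩ := exists_to_int (p.comp f).range (by
      rintro ⟨_, a, rfl⟩ ⟨_, b, rfl⟩
      apply Subtype.ext
      change (p.comp f) a * (p.comp f) b = (p.comp f) b * (p.comp f) a
      rw [← map_mul, mul_comm, map_mul])
    refine ⟨g.comp (p.comp f).rangeRestrict, fun x hx => ?_⟩
    have : (p.comp f).rangeRestrict x = 1 := hg (by rw [map_one]; exact hx)
    exact congrArg Subtype.val this
  obtain ⟨g1, hg1⟩ := key (MonoidHom.fst F F)
  obtain ⟨g2, hg2⟩ := key (MonoidHom.snd F F)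
  -- the linear map to ℤ²
  let L1 : (Fin 3 → ℤ) →+ ℤ := MonoidHom.toAdditive g1
  let L2 : (Fin 3 → ℤ) →+ ℤ := MonoidHom.toAdditive g2
  let L : (Fin 3 → ℤ) →ₗ[ℤ] (Fin 2 → ℤ) :=
    LinearMap.pi ![L1.toIntLinearMap, L2.toIntLinearMap]
  have hL : Function.Injective L := by
    rw [injective_iff_map_eq_zero]
    intro x hx
    have h1 : L1 x = 0 := congrFun hx 0
    have h2 : L2 x = 0 := congrFun hx 1
    have h3 : f (Multiplicative.ofAdd x) = 1 := by
      ext1
      · exact hg1 _ h1
      · exact hg2 _ h2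
    have h4 := hf (h3.trans (map_one f).symm)
    exact h4
  have := card_le_of_injective ℤ L hL
  simp at this

end Pool.Agent.Helper35.FreeProdBasic
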