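import Pool.Agent.Helper35.FibreProduct
import Pool.Agent.Helper35.FreeAffine

set_option autoImplicit false

namespace Pool.Agent.Helper35.InterFull

open Subgroup

section retraction
variable {X : Type}

open Classical in
/-- Retraction killing the generators outside `S`. -/
noncomputable def ρ (S : X → Prop) : FreeGroup X →* FreeGroup X :=
  FreeGroup.lift fun x => if S x then FreeGroup.of x else 1

lemma ρ_of_pos {S : X → Prop} {x : X} (h : S x) : ρ S (FreeGroup.of x) = FreeGroup.of x := by
  simp [ρ, h]

lemma ρ_of_neg {S : X → Prop} {x : X} (h : ¬ S x) : ρ S (FreeGroup.of x) = 1 := by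
  simp [ρ, h]

lemma ρ_ρ (S T : X → Prop) (w : FreeGroup X) : ρ S (ρ T w) = ρ (fun x => S x ∧ T x) w := by
  have : (ρ S).comp (ρ T) = ρ (fun x => S x ∧ T x) := by
    ext x
    rw [MonoidHom.comp_apply]
    by_cases hT : T x
    · by_cases hS : S x
      · rw [ρ_of_pos hT, ρ_of_pos hS, ρ_of_pos ⟨hS, hT⟩]
      · rw [ρ_of_pos hT, ρ_of_neg hS, ρ_of_neg (fun h => hS h.1)]
    · rw [ρ_of_neg hT, ρ_of_neg (fun h => hT h.2), map_one]
  exact DFunLike.congr_fun this w

lemma ρ_true (w : FreeGroup X) : ρ (fun _ => True) w = w := by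
  have : ρ (fun _ : X => True) = MonoidHom.id _ := by
    ext x
    rw [ρ_of_pos trivial]; rfl
  exact DFunLike.congr_fun this w

/-- supports and intersections -/
lemma ρ_inter {k : ℕ} (lab : X → Finset (Fin k)) (w : FreeGroup X) (I : Finset (Fin k)) :
    ρ (fun x => I ⊆ lab x) w = w ↔ ∀ i ∈ I, ρ (fun x => {i} ⊆ lab x) w = w := by
  classical
  constructor
  · intro h i hi
    have h1 : (fun x => {i} ⊆ lab x ∧ I ⊆ lab x) = fun x => I ⊆ lab x := by
      funext x
      refine propext ⟨fun h => h.2, fun h => ⟨?_, h⟩⟩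
      rw [Finset.singleton_subset_iff]
      exact h hi
    calc ρ (fun x => {i} ⊆ lab x) w = ρ (fun x => {i} ⊆ lab x) (ρ (fun x => I ⊆ lab x) w) := by
          rw [h]
      _ = w := by rw [ρ_ρ, h1, h]
  · induction I using Finset.induction_on with
    | empty =>
      intro _
      have : (fun x => (∅ : Finset (Fin k)) ⊆ lab x) = fun _ => True := by
        funext x; simp
      rw [this, ρ_true]
    | insert a J ha ih =>
      intro h
      have h1 := ih fun i hi => h i (Finset.mem_insert_of_mem hi)
      have h2 := h a (Finset.mem_insert_self _ _)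
      have h3 : (fun x => insert a J ⊆ lab x) = fun x => {a} ⊆ lab x ∧ J ⊆ lab x := by
        funext x
        rw [Finset.insert_subset_iff, Finset.singleton_subset_iff]
      rw [h3, ← ρ_ρ, h1, h2]

/-- A word fixed by the retraction comes from the subtype. -/
lemma exists_of_ρ {S : X → Prop} {w : FreeGroup X} (h : ρ S w = w) :
    ∃ w' : FreeGroup {x // S x}, FreeGroup.map Subtype.val w' = w := by
  classical
  let κ : FreeGroup X →* FreeGroup {x // S x} :=
    FreeGroup.lift fun x => if hx : S x then FreeGroup.of ⟨x, hx⟩ else 1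
  have h1 : (FreeGroup.map Subtype.val).comp κ = ρ S := by
    ext x
    rw [MonoidHom.comp_apply]
    by_cases hx : S x
    · simp [κ, hx, ρ_of_pos hx]
    · simp [κ, hx, ρ_of_neg hx]
  exact ⟨κ w, by rw [← MonoidHom.comp_apply, h1, h]⟩

lemma ρ_map {S : X → Prop} (w : FreeGroup {x // S x}) :
    ρ S (FreeGroup.map Subtype.val w) = FreeGroup.map Subtype.val w := by
  have : (ρ S).comp (FreeGroup.map Subtype.val) = FreeGroup.map (Subtype.val : {x // S x} → X) := by
    ext x
    rw [MonoidHom.comp_apply, FreeGroup.map.of, ρ_of_pos x.2]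
  exact DFunLike.congr_fun this w

end retraction

section construction

variable {k : ℕ} {bad : Finset (Fin k) → Prop} (i0 : {J // bad J} → Fin k)

/-- generators on the left -/
abbrev XX (bad : Finset (Fin k) → Prop) : Type := {J // bad J} × Option (Fin k)
/-- generators on the right -/
abbrev YY (bad : Finset (Fin k) → Prop) : Type := {J // bad J} × Fin k
/-- coordinates -/
abbrev AA (bad : Finset (Fin k) → Prop) : Type := Multiplicative ({J // bad J} × Fin k → ℤ)

open Classical in
/-- vectors of the left generators -/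
noncomputable def αv (x : XX bad) : {J // bad J} × Fin k → ℤ :=
  match x.2 with
  | some i => Pi.single (x.1, i) 1
  | none => 0

open Classical in
/-- vectors of the right generators -/
noncomputable def βv (y : YY bad) : {J // bad J} × Fin k → ℤ :=
  if y.2 ∈ y.1.1 then Pi.single y 1 - Pi.single (y.1, i0 y.1) 1 else 0

/-- left homomorphism -/
noncomputable def α : FreeGroup (XX bad) →* AA bad := FreeGroup.lift fun x => Multiplicative.ofAdd (αv x)

/-- right homomorphism -/
noncomputable def β : FreeGroup (YY bad) →* AA bad :=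
  FreeGroup.lift fun y => Multiplicative.ofAdd (βv i0 y)

open Classical in
/-- keep the coordinates in `I` -/
noncomputable def res (I : Finset (Fin k)) : AA bad →* AA bad :=
  AddMonoidHom.toMultiplicative
    { toFun := fun u p => if p.2 ∈ I then u p else 0
      map_zero' := by funext p; simp
      map_add' := by
        intro u v; funext p
        simp only [Pi.add_apply]
        split_ifs <;> simp }

lemma res_apply (I : Finset (Fin k)) (u : AA bad) (p : {J // bad J} × Fin k) :
    Multiplicative.toAdd (res I u) p = if p.2 ∈ I then Multiplicative.toAdd u p else 0 := rfl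

lemma res_eq_iff (I : Finset (Fin k)) (u v : AA bad) :
    res I u = res I v ↔ ∀ p : {J // bad J} × Fin k, p.2 ∈ I →
      Multiplicative.toAdd u p = Multiplicative.toAdd v p := by
  constructor
  · intro h p hp
    have := congrFun (congrArg Multiplicative.toAdd h) p
    rw [res_apply, res_apply, if_pos hp, if_pos hp] at this
    exact this
  · intro h
    apply Multiplicative.toAdd.injective
    funext p
    rw [res_apply, res_apply]
    by_cases hp : p.2 ∈ I
    · rw [if_pos hp, if_pos hp, h p hp]
    · rw [if_neg hp, if_neg hp]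

/-- the subgroup for the set `I` -/
noncomputable def HI (I : Finset (Fin k)) : Subgroup (FreeGroup (XX bad) × FreeGroup (YY bad)) :=
  MonoidHom.eqLocus ((ρ fun x : XX bad => I ⊆ x.1.1).comp (MonoidHom.fst _ _))
      (MonoidHom.fst _ _) ⊓
    MonoidHom.eqLocus ((ρ fun y : YY bad => I ⊆ y.1.1).comp (MonoidHom.snd _ _))
      (MonoidHom.snd _ _) ⊓
    MonoidHom.eqLocus (((res I).comp α).comp (MonoidHom.fst _ _))
      (((res I).comp (β i0)).comp (MonoidHom.snd _ _))

lemma mem_HI (I : Finset (Fin k)) (w : FreeGroup (XX bad)) (v : FreeGroup (YY bad)) :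
    (w, v) ∈ HI i0 I ↔ (ρ (fun x : XX bad => I ⊆ x.1.1) w = w ∧
      ρ (fun y : YY bad => I ⊆ y.1.1) v = v) ∧ res I (α w) = res I (β i0 v) := Iff.rfl

lemma iInf_HI (I : Finset (Fin k)) : ⨅ i ∈ I, HI (bad := bad) i0 {i} = HI i0 I := by
  ext ⟨w, v⟩
  simp only [mem_iInf, mem_HI]
  rw [ρ_inter (fun x : XX bad => x.1.1) w I, ρ_inter (fun y : YY bad => y.1.1) v I, res_eq_iff]
  constructor
  · intro h
    refine ⟨⟨fun i hi => (h i hi).1.1, fun i hi => (h i hi).1.2⟩, fun p hp => ?_⟩
    exact (res_eq_iff _ _ _).1 (h p.2 hp).2 p (Finset.mem_singleton_self _)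
  · rintro ⟨⟨h1, h2⟩, h3⟩ i hi
    refine ⟨⟨h1 i hi, h2 i hi⟩, (res_eq_iff _ _ _).2 fun p hp => h3 p ?_⟩
    rw [Finset.mem_singleton] at hp
    rw [hp]; exact hi

variable (hi0 : ∀ J : {J // bad J}, i0 J ∈ J.1)

/-- finitely generated case -/
lemma HI_fg (I : Finset (Fin k)) (hI : ¬ bad I) : (HI (bad := bad) i0 I).FG := by
  classical
  let f1 : FreeGroup {x : XX bad // I ⊆ x.1.1} →* AA bad :=
    ((res I).comp α).comp (FreeGroup.map Subtype.val)
  let f2 : FreeGroup {y : YY bad // I ⊆ y.1.1} →* AA bad :=
    ((res I).comp (β i0)).comp (FreeGroup.map Subtype.val)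
  have hf1 : ∀ x : {x : XX bad // I ⊆ x.1.1}, ∃ v, f2 v = f1 (FreeGroup.of x) := by
    rintro ⟨⟨J, o⟩, hJ⟩
    have hJ' : I ⊆ J.1 := hJ
    cases o with
    | none =>
      refine ⟨1, ?_⟩
      simp [f1, α, αv]
    | some i =>
      by_cases hi : i ∈ I
      · obtain ⟨i', hi'J, hi'I⟩ : ∃ i' ∈ J.1, i' ∉ I := by
          by_contra hcon
          push Not at hcon
          exact hI ((Finset.Subset.antisymm hJ' hcon) ▸ J.2)
        refine ⟨FreeGroup.of ⟨(J, i), hJ⟩ * (FreeGroup.of ⟨(J, i'), hJ⟩)⁻¹, ?_⟩
        simp only [f1, f2, map_mul, map_inv, MonoidHom.comp_apply, FreeGroup.map.of]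
        apply Multiplicative.toAdd.injective
        funext p
        rw [toAdd_mul, toAdd_inv, Pi.add_apply, Pi.neg_apply, res_apply, res_apply, res_apply]
        by_cases hp : p.2 ∈ I
        · rw [if_pos hp, if_pos hp, if_pos hp]
          simp only [α, β, FreeGroup.lift_apply_of, toAdd_ofAdd, αv, βv]
          rw [if_pos (hJ' hi), if_pos hi'J]
          have hne : p ≠ (J, i') := by
            rintro rfl
            exact hi'I hp
          simp [Pi.single_eq_of_ne hne]
        · rw [if_neg hp, if_neg hp, if_neg hp]; simp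
      · refine ⟨1, ?_⟩
        rw [map_one]
        apply Multiplicative.toAdd.injective
        funext p
        simp only [f1, MonoidHom.comp_apply, FreeGroup.map.of]
        rw [res_apply]
        split_ifs with hp
        · simp only [α, FreeGroup.lift_apply_of, toAdd_ofAdd, αv, toAdd_one, Pi.zero_apply]
          rw [Pi.single_eq_of_ne]
          rintro rfl
          exact hi hp
        · rfl
  have hf2 : ∀ y : {y : YY bad // I ⊆ y.1.1}, ∃ w, f1 w = f2 (FreeGroup.of y) := by
    rintro ⟨⟨J, i⟩, hJ⟩
    by_cases hi : i ∈ J.1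
    · refine ⟨FreeGroup.of ⟨(J, some i), hJ⟩ * (FreeGroup.of ⟨(J, some (i0 J)), hJ⟩)⁻¹, ?_⟩
      simp only [f1, f2, map_mul, map_inv, MonoidHom.comp_apply, FreeGroup.map.of]
      apply Multiplicative.toAdd.injective
      funext p
      rw [toAdd_mul, toAdd_inv, Pi.add_apply, Pi.neg_apply, res_apply, res_apply, res_apply]
      by_cases hp : p.2 ∈ I
      · rw [if_pos hp, if_pos hp, if_pos hp]
        simp only [α, β, FreeGroup.lift_apply_of, toAdd_ofAdd, αv, βv]
        rw [if_pos hi]
        simp [sub_eq_add_neg]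
      · rw [if_neg hp, if_neg hp, if_neg hp]; simp
    · refine ⟨1, ?_⟩
      rw [map_one]
      simp only [f2, MonoidHom.comp_apply, FreeGroup.map.of, β, FreeGroup.lift_apply_of, βv]
      rw [if_neg hi]
      simp
  have hP := Fibre.fibre_fg f1 f2 hf1 hf2
  have hmap : HI i0 I = (MonoidHom.eqLocus (f1.comp (MonoidHom.fst _ _))
      (f2.comp (MonoidHom.snd _ _))).map
      (MonoidHom.prodMap (FreeGroup.map Subtype.val) (FreeGroup.map Subtype.val)) := by
    ext ⟨w, v⟩
    constructor
    · intro h
      rw [mem_HI] at h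
      obtain ⟨⟨h1, h2⟩, h3⟩ := h
      obtain ⟨w', rfl⟩ := exists_of_ρ h1
      obtain ⟨v', rfl⟩ := exists_of_ρ h2
      exact ⟨(w', v'), h3, rfl⟩
    · rintro ⟨⟨w', v'⟩, h, heq⟩
      have h1 : FreeGroup.map Subtype.val w' = w := congrArg Prod.fst heq
      have h2 : FreeGroup.map Subtype.val v' = v := congrArg Prod.snd heq
      rw [← h1, ← h2, mem_HI]
      exact ⟨⟨ρ_map w', ρ_map v'⟩, h⟩
  rw [hmap]
  obtain ⟨S, hS⟩ := hP
  refine ⟨S.image (MonoidHom.prodMap (FreeGroup.map Subtype.val) (FreeGroup.map Subtype.val)), ?_⟩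
  rw [Finset.coe_image, ← MonoidHom.map_closure, hS]

include hi0 in
/-- not finitely generated case -/
lemma HI_not_fg (I : {J // bad J}) : ¬ (HI (bad := bad) i0 I.1).FG := by
  classical
  rw [← Group.fg_iff_subgroup_fg]
  let n : XX bad → ℤ := fun x =>
    match x.2 with
    | some i => if x.1 = I ∧ i ∈ I.1 then 1 else 0
    | none => 0
  -- sum of coordinates
  let σ : AA bad →* Multiplicative ℤ := AddMonoidHom.toMultiplicative
    { toFun := fun u => ∑ i ∈ I.1, u (I, i)
      map_zero' := by simp
      map_add' := fun u v => by simp [Finset.sum_add_distrib] }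
  have hσ : ∀ u : AA bad, Multiplicative.toAdd (σ u)
      = ∑ i ∈ I.1, (Multiplicative.toAdd u) (I, i) := fun u => rfl
  have hσα : σ.comp α = FreeAffine.χ n := by
    ext x
    obtain ⟨J, o⟩ := x
    rw [MonoidHom.comp_apply]
    simp only [hσ, α, FreeAffine.χ, FreeGroup.lift_apply_of, toAdd_ofAdd, n, αv]
    cases o with
    | none => simp
    | some i =>
      by_cases hJ : J = I
      · subst hJ
        by_cases hi : i ∈ J.1
        · rw [Finset.sum_eq_single i]
          · simp [hi]
          · intro b _ hb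
            exact Pi.single_eq_of_ne (fun h => hb (congrArg Prod.snd h)) _
          · intro h; exact absurd hi h
        · rw [Finset.sum_eq_zero]
          · simp [hi]
          · intro b hb
            refine Pi.single_eq_of_ne (fun h => ?_) _
            have : b = i := congrArg Prod.snd h
            exact hi (this ▸ hb)
      · rw [Finset.sum_eq_zero]
        · simp [hJ]
        · intro b _
          exact Pi.single_eq_of_ne (fun h => hJ (congrArg Prod.fst h).symm) _
  have hσβ : σ.comp (β i0) = 1 := by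
    ext y
    obtain ⟨J, i⟩ := y
    rw [MonoidHom.comp_apply]
    simp only [hσ, β, FreeGroup.lift_apply_of, toAdd_ofAdd, βv, MonoidHom.one_apply, toAdd_one]
    by_cases hi : i ∈ J.1
    · rw [if_pos hi]
      simp only [Pi.sub_apply, Finset.sum_sub_distrib]
      by_cases hJ : J = I
      · subst hJ
        rw [Finset.sum_eq_single i, Finset.sum_eq_single (i0 J)]
        · simp
        · intro b _ hb
          rw [Pi.single_eq_of_ne]
          intro h; exact hb (congrArg Prod.snd h)
        · intro h; exact absurd (hi0 J) h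
        · intro b _ hb
          rw [Pi.single_eq_of_ne]
          intro h; exact hb (congrArg Prod.snd h)
        · intro h; exact absurd hi h
      · rw [Finset.sum_eq_zero, Finset.sum_eq_zero]
        · simp
        · intro b _
          rw [Pi.single_eq_of_ne]
          intro h; exact hJ (congrArg Prod.fst h).symm
        · intro b _
          rw [Pi.single_eq_of_ne]
          intro h; exact hJ (congrArg Prod.fst h).symm
    · rw [if_neg hi]; simp
  have hσres : ∀ u v : AA bad, res I.1 u = res I.1 v → σ u = σ v := by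
    intro u v huv
    rw [res_eq_iff] at huv
    apply Multiplicative.toAdd.injective
    rw [hσ, hσ]
    exact Finset.sum_congr rfl fun i hi => huv (I, i) hi
  refine FreeAffine.not_fg ((MonoidHom.fst _ _).comp (HI i0 I.1).subtype) n ?_
    (I, some (i0 I)) (I, none) ?_ ?_ ?_
  · rintro ⟨⟨w, v⟩, h⟩
    rw [mem_HI] at h
    have h1 := hσres _ _ h.2
    have h2 : σ (α w) = FreeAffine.χ n w := DFunLike.congr_fun hσα w
    have h3 : σ (β i0 v) = 1 := DFunLike.congr_fun hσβ v
    change FreeAffine.χ n w = 1
    rw [← h2, h1, h3]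
  · simp [n, hi0 I]
  · simp [n]
  · intro m
    refine ⟨⟨((FreeGroup.of (I, some (i0 I)))⁻¹ ^ m * FreeGroup.of (I, none) *
      FreeGroup.of (I, some (i0 I)) ^ m, 1), ?_⟩, rfl⟩
    rw [mem_HI]
    refine ⟨⟨?_, map_one _⟩, ?_⟩
    · rw [map_mul, map_mul, map_pow, map_pow, map_inv, ρ_of_pos, ρ_of_pos]
      · exact fun i hi => hi
      · exact fun i hi => hi
    · congr 1
      rw [map_one]
      simp [α, αv, mul_comm]

end construction

/-- Realization of all configurations in a product of two free groups of finite rank. -/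
lemma exists_realization {k : ℕ} (bad : Finset (Fin k) → Prop)
    (hbad : ∀ J, bad J → J.Nonempty) :
    ∃ H : Fin k → Subgroup (FreeGroup (XX bad) × FreeGroup (YY bad)),
      ∀ I : Finset (Fin k), (⨅ i ∈ I, H i).FG ↔ ¬ bad I := by
  choose i0 hi0 using fun J : {J // bad J} => hbad J.1 J.2
  refine ⟨fun i => HI i0 {i}, fun I => ?_⟩
  rw [iInf_HI]
  constructor
  · intro h hI
    exact HI_not_fg i0 hi0 ⟨I, hI⟩ h
  · exact HI_fg i0 I

/-- Transfer along an injective homomorphism. -/
lemma transfer {k : ℕ} {G G' : Type} [Group G] [Group G'] (f : G →* G')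
    (hf : Function.Injective f) (H : Fin k → Subgroup G) (I : Finset (Fin k)) (hI : I.Nonempty) :
    (⨅ i ∈ I, (H i).map f).FG ↔ (⨅ i ∈ I, H i).FG := by
  have h1 : ⨅ i ∈ I, (H i).map f = (⨅ i ∈ I, H i).map f := by
    ext g
    simp only [mem_iInf]
    constructor
    · intro h
      obtain ⟨i, hi⟩ := hI
      obtain ⟨x, _, rfl⟩ := h i hi
      refine ⟨x, ?_, rfl⟩
      simp only [SetLike.mem_coe, mem_iInf]
      intro j hj
      obtain ⟨y, hy, hyx⟩ := h j hj
      exact hf hyx ▸ hy
    · rintro ⟨x, hx, rfl⟩ i hi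
      simp only [SetLike.mem_coe, mem_iInf] at hx
      exact ⟨x, hx i hi, rfl⟩
  rw [h1, ← Group.fg_iff_subgroup_fg, ← Group.fg_iff_subgroup_fg]
  let e := (⨅ i ∈ I, H i).equivMapOfInjective f hf
  constructor
  · intro h
    exact Group.fg_of_surjective (f := e.symm.toMonoidHom) e.symm.surjective
  · intro h
    exact Group.fg_of_surjective (f := e.toMonoidHom) e.surjective

end Pool.Agent.Helper35.InterFull
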