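import Pool.Agent.Helper35.TemporalStep

set_option autoImplicit false

namespace Pool.Agent.Helper35.Temporal

variable {V : Type*}

/-- Colours. -/
abbrev Col := Bool × Bool

/-- The same colour classes. -/
def Ker (C P : V → Col) : Prop := ∀ x y, C x = C y ↔ P x = P y

lemma Ker.exists_perm {C P : V → Col} (h : Ker C P) :
    ∃ ρ : Equiv.Perm Col, ∀ x, C x = ρ (P x) := by
  classical
  let p : Col → Prop := fun c => ∃ x, P x = c
  let q : Col → Prop := fun c => ∃ x, C x = c
  let f : {c // p c} → {c // q c} := fun c => ⟨C c.2.choose, ⟨_, rfl⟩⟩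
  have hf : ∀ x, f ⟨P x, x, rfl⟩ = ⟨C x, x, rfl⟩ := by
    intro x
    apply Subtype.ext
    have h1 : P (Exists.choose (⟨x, rfl⟩ : ∃ y, P y = P x)) = P x :=
      Exists.choose_spec (⟨x, rfl⟩ : ∃ y, P y = P x)
    exact (h _ _).2 h1
  have hbij : Function.Bijective f := by
    constructor
    · rintro ⟨c, x, rfl⟩ ⟨c', y, rfl⟩ hxy
      rw [hf, hf] at hxy
      have : C x = C y := congrArg Subtype.val hxy
      exact Subtype.ext ((h x y).1 this)
    · rintro ⟨c, x, rfl⟩
      exact ⟨⟨P x, x, rfl⟩, hf x⟩
  let e : {c // p c} ≃ {c // q c} := Equiv.ofBijective f hbij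
  refine ⟨e.extendSubtype, fun x => ?_⟩
  rw [Equiv.extendSubtype_apply_of_mem e (P x) ⟨x, rfl⟩]
  exact (congrArg Subtype.val (hf x)).symm

/-- The standard colouring `P(S, t; a)`. -/
def Pc (S t a : V → Bool) : V → Col := fun x => (S x, bif S x then t x else a x)

/-- A flip. -/
structure Flip (V : Type*) where
  X : V → Bool
  e : Bool → V
  g : Bool → V
  he : ∀ i, X (e i) = i
  hg : ∀ i, X (g i) = i

/-- Compatibility. -/
def Compat (H : V → V → Prop) (C C' : V → Col) : Prop :=
  ∀ x y, H x y → C x ≠ C y ∧ C x ≠ C' y ∧ C' x ≠ C y ∧ C' x ≠ C' y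

/-- An edge relation `H` behaves well for the flip from `a` to `px a D.X`. -/
def FlipOK (D : Flip V) (a : V → Bool) (H : V → V → Prop) : Prop :=
  ∀ x y, H x y → (∃ i, x = D.e i ∧ y = D.e (!i)) ∨ (∃ i, x = D.g i ∧ y = D.g (!i)) ∨
    (a x ≠ a y ∧ px a D.X x ≠ px a D.X y)

/-- The condition on the two sets for the transition. -/
structure TransOK (D : Flip V) (S S' : V → Bool) : Prop where
  e1 : ∃ i, S (D.e i) = true
  e2 : ∃ i, S' (D.e i) = false
  e3 : ∀ i, S' (D.e i) = true → S (D.e (!i)) = true
  g1 : ∃ i, S' (D.g i) = true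
  g2 : ∃ i, S (D.g i) = false
  g3 : ∀ i, S (D.g i) = true → S' (D.g (!i)) = true

/-- Swap of the palette. -/
def sw : Col → Col := fun c => (!c.1, c.2)

lemma sw_sw (c : Col) : sw (sw c) = c := by simp [sw]

def swE : Equiv.Perm Col := ⟨sw, sw, sw_sw, sw_sw⟩

set_option synthInstance.maxSize 2000 in
lemma flip_pattern {D : Flip V} {a : V → Bool} {H : V → V → Prop} (hH : FlipOK D a H)
    (hae : a (D.e true) = a (D.e false)) (hag : a (D.g true) ≠ a (D.g false))
    {S S' : V → Bool} (h : TransOK D S S') :
    Compat H (Pc S (px a D.X) a) (fun x => sw (Pc S' a (px a D.X) x)) := by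
  intro x y hxy
  have e1 : S (D.e true) = true ∨ S (D.e false) = true := by
    obtain ⟨i, hi⟩ := h.e1; cases i <;> simp [hi]
  have e2 : S' (D.e true) = false ∨ S' (D.e false) = false := by
    obtain ⟨i, hi⟩ := h.e2; cases i <;> simp [hi]
  have g1 : S' (D.g true) = true ∨ S' (D.g false) = true := by
    obtain ⟨i, hi⟩ := h.g1; cases i <;> simp [hi]
  have g2 : S (D.g true) = false ∨ S (D.g false) = false := by
    obtain ⟨i, hi⟩ := h.g2; cases i <;> simp [hi]
  have e3 := h.e3 true
  have e3' := h.e3 false
  have g3 := h.g3 true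
  have g3' := h.g3 false
  have he := D.he true
  have he' := D.he false
  have hg := D.hg true
  have hg' := D.hg false
  simp only [Bool.not_true, Bool.not_false] at e3 e3' g3 g3'
  rcases hH x y hxy with ⟨i, rfl, rfl⟩ | ⟨i, rfl, rfl⟩ | ⟨h1, h2⟩
  · cases i <;>
    · simp only [Bool.not_true, Bool.not_false, Pc, sw, px_apply, he, he', hae]
      revert e1 e2 e3 e3'
      generalize S (D.e true) = s1
      generalize S (D.e false) = s2
      generalize S' (D.e true) = s3
      generalize S' (D.e false) = s4
      generalize a (D.e false) = s5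
      intro e1 e2 e3 e3'
      cases s1 <;> cases s2 <;> cases s3 <;> cases s4 <;> cases s5 <;> simp_all
  · cases i <;>
    · simp only [Bool.not_true, Bool.not_false, Pc, sw, px_apply, hg, hg']
      revert g1 g2 g3 g3' hag
      generalize S (D.g true) = s1
      generalize S (D.g false) = s2
      generalize S' (D.g true) = s3
      generalize S' (D.g false) = s4
      generalize a (D.g false) = s5
      generalize a (D.g true) = s6
      revert s1 s2 s3 s4 s5 s6
      decide
  · simp only [Pc, sw]
    revert h1 h2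
    generalize S x = s1
    generalize S y = s2
    generalize S' x = s3
    generalize S' y = s4
    generalize px a D.X x = s5
    generalize px a D.X y = s6
    generalize a x = s7
    generalize a y = s8
    clear e1 e2 e3 e3' hH hxy h he he' hae g1 g2 g3 g3' hg hg' hag
    intro h1 h2
    cases s1 <;> cases s2 <;> cases s3 <;> cases s4 <;> cases s5 <;> cases s6 <;> cases s7 <;>
      cases s8 <;> simp_all

lemma Ker.of_perm {C P : V → Col} (ρ : Equiv.Perm Col) (h : ∀ x, C x = ρ (P x)) : Ker C P := by
  intro x y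
  rw [h, h, ρ.injective.eq_iff]

lemma Ker.trans {C P Q : V → Col} (h : Ker C P) (h' : Ker P Q) : Ker C Q :=
  fun x y => (h x y).trans (h' x y)

lemma Compat.perm {H : V → V → Prop} {C C' : V → Col} (h : Compat H C C') (ρ : Equiv.Perm Col) :
    Compat H (fun x => ρ (C x)) (fun x => ρ (C' x)) := by
  intro x y hxy
  simpa only [ne_eq, ρ.injective.eq_iff] using h x y hxy

/-- The transition lemma. -/
lemma trans_flip {D : Flip V} {a : V → Bool} {H : V → V → Prop} (hH : FlipOK D a H)
    (hae : a (D.e true) = a (D.e false)) (hag : a (D.g true) ≠ a (D.g false))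
    {S S' : V → Bool} (h : TransOK D S S') {C : V → Col} (hC : Ker C (Pc S (px a D.X) a)) :
    ∃ C', Compat H C C' ∧ Ker C' (Pc S' a (px a D.X)) := by
  obtain ⟨ρ, hρ⟩ := hC.exists_perm
  refine ⟨fun x => ρ (sw (Pc S' a (px a D.X) x)), ?_, ?_⟩
  · have := (flip_pattern hH hae hag h).perm ρ
    intro x y hxy
    have h2 := this x y hxy
    rw [hρ, hρ]
    exact h2
  · exact Ker.of_perm (swE.trans ρ) fun x => rfl

/-- Standard form in which one palette is given by a side of `Q`. -/
lemma ker_side {Q a t S : V → Bool} {i c : Bool} (hS : ∀ x, S x = true ↔ Q x = i)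
    (ht : ∀ x, S x = true → t x = xor (a x) c) : Ker (Pc S t a) (fun x => (Q x, a x)) := by
  intro x y
  have hx := hS x
  have hy := hS y
  have htx := ht x
  have hty := ht y
  simp only [Pc]
  revert hx hy htx hty
  generalize S x = s1
  generalize S y = s2
  generalize Q x = s3
  generalize Q y = s4
  generalize a x = s5
  generalize a y = s6
  generalize t x = s7
  generalize t y = s8
  intro hx hy htx hty
  cases s1 <;> cases s2 <;> cases s3 <;> cases s4 <;> cases s5 <;> cases s6 <;> cases i <;>
    cases c <;> simp_all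

lemma Ker.symm {C P : V → Col} (h : Ker C P) : Ker P C := fun x y => (h x y).symm

/-- Changing the second palette by a constant. -/
lemma ker_change {a t t' S : V → Bool} {c : Bool}
    (ht : ∀ x, S x = true → t x = xor (t' x) c) : Ker (Pc S t a) (Pc S t' a) := by
  intro x y
  have htx := ht x
  have hty := ht y
  simp only [Pc]
  revert htx hty
  generalize S x = s1
  generalize S y = s2
  generalize a x = s5
  generalize a y = s6
  generalize t x = s7
  generalize t y = s8
  generalize t' x = s9
  generalize t' y = s10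
  intro hx hy
  cases s1 <;> cases s2 <;> cases s5 <;> cases s6 <;> cases s9 <;> cases s10 <;> cases c <;>
    simp_all

end Pool.Agent.Helper35.Temporal
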