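import Pool.Agent.Helper35.TemporalState

set_option autoImplicit false

namespace Pool.Agent.Helper35.Temporal

variable {V : Type*}

/-- The invariant before the transition `t`. -/
def Inv (t : Option (Flip V)) (a : V → Bool) (C : V → Col) : Prop :=
  match t with
  | none => ∃ b : V → Bool, Ker C (fun x => (b x, a x))
  | some D => Ker C (fun x => (D.X x, a x)) ∨ ∃ v S, OutSet D v S ∧ Ker C (Pc S (px a D.X) a)

lemma out_side (D : Flip V) {a : V → Bool} {C : V → Col} (h : Ker C (fun x => (D.X x, a x)))
    (i : Bool) : Ker C (Pc (side D i) (px a D.X) a) :=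
  h.trans (ker_side (i := i) (c := i) (side_iff D i) fun x hx => by
    rw [side_iff] at hx; rw [px_apply, hx]).symm

lemma in_side (D : Flip V) {a : V → Bool} {C : V → Col} {i : Bool}
    (h : Ker C (Pc (side D i) a (px a D.X))) : Ker C (fun x => (D.X x, px a D.X x)) :=
  h.trans (ker_side (i := i) (c := i) (side_iff D i) fun x hx => by
    rw [side_iff] at hx; rw [px_apply, hx, Bool.xor_assoc, Bool.xor_self, Bool.xor_false])

section
variable {D : Flip V} {a : V → Bool} {H : V → V → Prop} (hH : FlipOK D a H)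
    (hae : a (D.e true) = a (D.e false)) (hag : a (D.g true) ≠ a (D.g false))
    {C : V → Col} (hC : Inv (some D) a C)
include hH hae hag hC

lemma T1 : ∃ C', Compat H C C' ∧ Ker C' (fun x => (D.X x, px a D.X x)) := by
  rcases hC with h | ⟨v, S, hS, h⟩
  · obtain ⟨C', h1, h2⟩ := trans_flip hH hae hag (tr_O1_T1 D true) (out_side D h true)
    exact ⟨C', h1, in_side D h2⟩
  · obtain ⟨i, hi⟩ := tr_out_T1 D hS
    obtain ⟨C', h1, h2⟩ := trans_flip hH hae hag hi h
    exact ⟨C', h1, in_side D h2⟩

lemma T2 (u : Bool) (W : V → Bool) (hWe : ∀ i, W (D.e i) = false) (hWg : W (D.g (!u)) = true)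
    (s : V) (hs : W s = true) :
    ∃ C', Compat H C C' ∧ (Ker C' (Pc W a (px a D.X)) ∨
      Ker C' (Pc (pair (D.g u) s) a (px a D.X))) := by
  rcases hC with h | ⟨v, S, hS, h⟩
  · obtain ⟨C', h1, h2⟩ := trans_flip hH hae hag (tr_O1_T2 D u W hWe hWg) (out_side D h u)
    exact ⟨C', h1, Or.inl h2⟩
  · rcases tr_out_T2 D hS u W hWe hWg s hs with hi | hi
    · obtain ⟨C', h1, h2⟩ := trans_flip hH hae hag hi h
      exact ⟨C', h1, Or.inl h2⟩
    · obtain ⟨C', h1, h2⟩ := trans_flip hH hae hag hi h
      exact ⟨C', h1, Or.inr h2⟩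

lemma T3 (u : Bool) (s r : V) (hs : ∀ i, s ≠ D.e i) (hr : D.X r ≠ u) :
    ∃ C', Compat H C C' ∧ (Ker C' (Pc (pair (D.g u) s) a (px a D.X)) ∨
      Ker C' (Pc (pair (D.g (!u)) r) a (px a D.X))) := by
  rcases hC with h | ⟨v, S, hS, h⟩
  · have htr : TransOK D (side D (!u)) (pair (D.g u) s) :=
      tr_pair1 D _ u s hs ⟨!u, by simp [side, D.he]⟩ ⟨u, by simp [side, D.hg]⟩
        (fun _ => by simp [side, D.he]) (by simp [side, D.hg])
    obtain ⟨C', h1, h2⟩ := trans_flip hH hae hag htr (out_side D h (!u))
    exact ⟨C', h1, Or.inl h2⟩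
  · rcases tr_out_T3 D hS u s r hs hr with hi | hi
    · obtain ⟨C', h1, h2⟩ := trans_flip hH hae hag hi h
      exact ⟨C', h1, Or.inl h2⟩
    · obtain ⟨C', h1, h2⟩ := trans_flip hH hae hag hi h
      exact ⟨C', h1, Or.inr h2⟩

/-- Step for a flip. -/
lemma step_flip (t' : Option (Flip V)) (ht' : ∀ D', t' = some D' → Rel D D') :
    ∃ C', Compat H C C' ∧ Inv t' (px a D.X) C' := by
  cases t' with
  | none =>
    obtain ⟨C', h1, h2⟩ := T1 hH hae hag hC
    exact ⟨C', h1, D.X, h2⟩
  | some D' =>
    rcases ht' D' rfl with ⟨c, hc⟩ | ⟨u, v, h1, h2, h3⟩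
    · obtain ⟨C', h1, h2⟩ := T1 hH hae hag hC
      refine ⟨C', h1, Or.inl (h2.trans ?_)⟩
      intro x y
      simp only [hc, Prod.mk.injEq]
      cases D.X x <;> cases D.X y <;> cases c <;> simp
    · have h1' : ∀ x, D'.X x = v → D.X x ≠ u := fun x hx hx2 => h1 x hx2 hx
      by_cases hr : D.X (D'.e (!v)) = u
      · obtain ⟨C', hC1, hC2⟩ := T1 hH hae hag hC
        refine ⟨C', hC1, Or.inr ⟨v, side D u, Or.inl ⟨fun x hx => ?_, ?_, fun i => ?_⟩, ?_⟩⟩
        · rw [side_false]; exact h1' x hx
        · rw [side_iff]; exact hr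
        · rw [side_false]; exact h3 i
        · refine hC2.trans (ker_side (i := u) (c := !v) (side_iff D u) fun x hx => ?_).symm
          rw [side_iff] at hx
          rw [px_apply, (bne.1 (h1 x hx))]
      · by_cases hq : D'.X (D.g (!u)) = v
        · obtain ⟨C', hC1, hC2⟩ := T2 hH hae hag hC u (side D' v)
            (fun i => by rw [side_false]; exact h2 i) (by rw [side_iff]; exact hq) (D'.e v)
            (by rw [side_iff, D'.he])
          refine ⟨C', hC1, ?_⟩
          rcases hC2 with hC2 | hC2
          · left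
            refine hC2.trans (ker_side (i := v) (c := !u) (side_iff D' v) fun x hx => ?_)
            rw [side_iff] at hx
            rw [px_apply, (bne.1 (h1' x hx)), Bool.xor_assoc, Bool.xor_self, Bool.xor_false]
          · right
            refine ⟨v, pair (D.g u) (D'.e v), Or.inr (Or.inl ⟨D.g u, pair_iff _ _, ?_, ?_⟩), ?_⟩
            · exact h1 _ (D.hg u)
            · intro i hi
              exact h3 i (hi ▸ D.hg u)
            · refine hC2.trans (ker_change (c := xor u (!v)) fun x hx => ?_)
              rw [pair_iff] at hx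
              rcases hx with rfl | rfl
              · rw [px_apply, px_apply, D.hg, bne.1 (h1 _ (D.hg u))]
                generalize a (D.g u) = b
                cases b <;> cases u <;> cases v <;> rfl
              · rw [px_apply, px_apply, D'.he, bne.1 (h1' _ (D'.he v))]
                generalize a (D'.e v) = b
                cases b <;> cases u <;> cases v <;> rfl
        · obtain ⟨C', hC1, hC2⟩ := T3 hH hae hag hC u (D'.e v) (D'.e (!v))
            (fun i hi => h2 i (hi ▸ D'.he v)) hr
          refine ⟨C', hC1, ?_⟩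
          rcases hC2 with hC2 | hC2
          · right
            refine ⟨v, pair (D.g u) (D'.e v), Or.inr (Or.inl ⟨D.g u, pair_iff _ _, ?_, ?_⟩), ?_⟩
            · exact h1 _ (D.hg u)
            · intro i hi
              exact h3 i (hi ▸ D.hg u)
            · refine hC2.trans (ker_change (c := xor u (!v)) fun x hx => ?_)
              rw [pair_iff] at hx
              rcases hx with rfl | rfl
              · rw [px_apply, px_apply, D.hg, bne.1 (h1 _ (D.hg u))]
                generalize a (D.g u) = b
                cases b <;> cases u <;> cases v <;> rfl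
              · rw [px_apply, px_apply, D'.he, bne.1 (h1' _ (D'.he v))]
                generalize a (D'.e v) = b
                cases b <;> cases u <;> cases v <;> rfl
          · right
            refine ⟨v, pair (D.g (!u)) (D'.e (!v)), Or.inr (Or.inr ⟨D.g (!u), pair_iff _ _, hq⟩),
              ?_⟩
            refine hC2.trans (ker_change (c := xor (!u) (!v)) fun x hx => ?_)
            rw [pair_iff] at hx
            rcases hx with rfl | rfl
            · rw [px_apply, px_apply, D.hg, bne.1 hq]
              generalize a (D.g (!u)) = b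
              cases b <;> cases u <;> cases v <;> rfl
            · rw [px_apply, px_apply, D'.he, bne.1 hr]
              generalize a (D'.e (!v)) = b
              cases b <;> cases u <;> cases v <;> rfl

end

lemma step_none {a : V → Bool} {H : V → V → Prop} (hH : ∀ x y, H x y → a x ≠ a y)
    {C : V → Col} (hC : Inv none a C) (t' : Option (Flip V)) :
    ∃ C', Compat H C C' ∧ Inv t' a C' := by
  obtain ⟨b, hb⟩ := hC
  obtain ⟨ρ, hρ⟩ := hb.exists_perm
  have key : ∀ b' : V → Bool, Compat H C (fun x => ρ (b' x, a x)) := by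
    intro b' x y hxy
    have := hH x y hxy
    rw [hρ, hρ]
    simp [ρ.injective.eq_iff, this]
  cases t' with
  | none => exact ⟨fun x => ρ (false, a x), key (fun _ => false), fun _ => false,
      Ker.of_perm ρ fun x => rfl⟩
  | some D => exact ⟨fun x => ρ (D.X x, a x), key D.X, Or.inl (Ker.of_perm ρ fun x => rfl)⟩

lemma exists_start (t : Option (Flip V)) (a : V → Bool) : ∃ C, Inv t a C := by
  cases t with
  | none => exact ⟨fun x => (false, a x), fun _ => false, fun _ _ => Iff.rfl⟩
  | some D => exact ⟨fun x => (D.X x, a x), Or.inl fun _ _ => Iff.rfl⟩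

/-- From a cut edge to its two ends, labelled by their sides. -/
lemma exists_ends {X : V → Bool} {g : Sym2 V} (h : d X g = true) :
    ∃ f : Bool → V, (∀ i, X (f i) = i) ∧ g = s(f false, f true) := by
  induction g using Sym2.ind with
  | _ x y =>
    rw [d_mk] at h
    cases hx : X x <;> cases hy : X y <;> rw [hx, hy] at h
    · exact absurd h (by decide)
    · exact ⟨fun i => bif i then y else x, by intro i; cases i <;> simp [hx, hy], rfl⟩
    · exact ⟨fun i => bif i then x else y, by intro i; cases i <;> simp [hx, hy], Sym2.eq_swap⟩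
    · exact absurd h (by decide)

/-- Data of a transition. -/
def TrOK (E' E'₂ : Set (Sym2 V)) (a a₂ : V → Bool) (t : Option (Flip V)) : Prop :=
  match t with
  | none => a₂ = a
  | some D => a₂ = px a D.X ∧ Cut E' D.X s(D.g false, D.g true) ∧
      Cut E'₂ D.X s(D.e false, D.e true)

lemma exists_trOK {E' E'₂ : Set (Sym2 V)} {a a₂ : V → Bool}
    (h : a₂ = a ∨ ∃ X g e, a₂ = px a X ∧ Cut E' X g ∧ Cut E'₂ X e) :
    ∃ t, TrOK E' E'₂ a a₂ t := by
  rcases h with h | ⟨X, g, e, h1, h2, h3⟩
  · exact ⟨none, h⟩
  · obtain ⟨f, hf, rfl⟩ := exists_ends h2.2.1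
    obtain ⟨f', hf', rfl⟩ := exists_ends h3.2.1
    exact ⟨some ⟨X, f', f, hf', hf⟩, h1, h2, h3⟩

lemma d_true_iff {X : V → Bool} {x y : V} : d X s(x, y) = true ↔ X x ≠ X y := by
  rw [d_mk]; cases X x <;> cases X y <;> simp

/-- Consecutive flips are related. -/
lemma rel_of_cut {E' : Set (Sym2 V)} (hc : Conn E') {D D' : Flip V}
    (h : Cut E' D.X s(D.e false, D.e true)) (h' : Cut E' D'.X s(D'.g false, D'.g true)) :
    Rel D D' := by
  by_cases heq : (s(D.e false, D.e true) : Sym2 V) = s(D'.g false, D'.g true)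
  · left
    obtain ⟨c, hc'⟩ := hc (px D.X D'.X) (fun e he => by
      rw [d_px]
      by_cases hh : e = s(D.e false, D.e true)
      · rw [hh, h.2.1, heq, h'.2.1]; rfl
      · have h1 : d D.X e = false := by
          by_contra hne
          rw [Bool.not_eq_false] at hne
          exact hh (h.2.2 e he hne)
        have h2 : d D'.X e = false := by
          by_contra hne
          rw [Bool.not_eq_false] at hne
          exact hh ((h'.2.2 e he hne).trans heq.symm)
        rw [h1, h2]; rfl)
    refine ⟨c, fun x => ?_⟩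
    have := hc' x
    rw [px_apply] at this
    rw [← this, ← Bool.xor_assoc, Bool.xor_self, Bool.false_xor]
  · right
    have h1 : D'.X (D.e false) = D'.X (D.e true) := by
      by_contra hne
      exact heq (h'.2.2 _ h.1 (d_true_iff.2 hne))
    have h2 : D.X (D'.g false) = D.X (D'.g true) := by
      by_contra hne
      exact heq (h.2.2 _ h'.1 (d_true_iff.2 hne)).symm
    refine ⟨!(D.X (D'.g true)), !(D'.X (D.e true)), ?_, ?_, ?_⟩
    · -- the intersection of the two sides is empty
      obtain ⟨c, hc'⟩ := hc (fun x => (xor (D.X x) (D.X (D'.g true))) &&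
          (xor (D'.X x) (D'.X (D.e true)))) (fun e he => by
        by_cases hh : e = s(D.e false, D.e true)
        · rw [hh, d_mk, h1]
          cases D'.X (D.e true) <;> simp
        · by_cases hh' : e = s(D'.g false, D'.g true)
          · rw [hh', d_mk, h2]
            cases D.X (D'.g true) <;> simp
          · have h3 : d D.X e = false := by
              by_contra hne
              rw [Bool.not_eq_false] at hne
              exact hh (h.2.2 e he hne)
            have h4 : d D'.X e = false := by
              by_contra hne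
              rw [Bool.not_eq_false] at hne
              exact hh' (h'.2.2 e he hne)
            induction e using Sym2.ind with
            | _ x y =>
              rw [d_mk] at h3 h4 ⊢
              have h5 : D.X x = D.X y := by
                cases hx : D.X x <;> cases hy : D.X y <;> simp_all
              have h6 : D'.X x = D'.X y := by
                cases hx : D'.X x <;> cases hy : D'.X y <;> simp_all
              rw [h5, h6, Bool.xor_self])
      have hc0 := hc' (D.e true)
      simp only [Bool.xor_self, Bool.and_false] at hc0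
      intro x hx hx'
      have := hc' x
      rw [← hc0, hx, hx'] at this
      cases hA : D.X (D'.g true) <;> cases hB : D'.X (D.e true) <;> simp_all
    · intro i
      cases i
      · rw [h1]; cases D'.X (D.e true) <;> simp
      · cases D'.X (D.e true) <;> simp
    · intro i
      cases i
      · rw [h2]; cases D.X (D'.g true) <;> simp
      · cases D.X (D'.g true) <;> simp

/-- The colour step for one transition. -/
lemma colour_step {E E₂ E' E'₂ : Set (Sym2 V)} {a a₂ : V → Bool} {t t' : Option (Flip V)}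
    (h : TrOK E' E'₂ a a₂ t) (hE : E ⊆ E') (hE₂ : E₂ ⊆ E'₂) (ha : Prop2 E' a)
    (ha₂ : Prop2 E'₂ a₂) (ht : ∀ D D', t = some D → t' = some D' → Rel D D')
    {C : V → Col} (hC : Inv t a C) :
    ∃ C', Compat (fun x y => s(x, y) ∈ E ∨ s(x, y) ∈ E₂) C C' ∧ Inv t' a₂ C' := by
  cases t with
  | none =>
    have h' : a₂ = a := h
    subst h'
    refine step_none (fun x y hxy => ?_) hC t'
    rcases hxy with hxy | hxy
    · exact d_true_iff.1 (ha _ (hE hxy))
    · exact d_true_iff.1 (ha₂ _ (hE₂ hxy))
  | some D =>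
    obtain ⟨h1, h2, h3⟩ := h
    subst h1
    have hae : a (D.e true) = a (D.e false) := by
      have h4 := ha₂ _ h3.1
      rw [d_px, h3.2.1] at h4
      have h5 : d a s(D.e false, D.e true) = false := by
        cases hh : d a s(D.e false, D.e true) <;> rw [hh] at h4 <;> simp_all
      rw [d_mk] at h5
      cases hx : a (D.e true) <;> cases hy : a (D.e false) <;> simp_all
    have hag : a (D.g true) ≠ a (D.g false) := fun hh => d_true_iff.1 (ha _ h2.1) hh.symm
    refine step_flip (fun x y hxy => ?_) hae hag hC t' (fun D' hD' => ht D D' rfl hD')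
    by_cases hg : (s(x, y) : Sym2 V) = s(D.g false, D.g true)
    · right; left
      rcases Sym2.eq_iff.1 hg with ⟨rfl, rfl⟩ | ⟨rfl, rfl⟩
      · exact ⟨false, rfl, rfl⟩
      · exact ⟨true, rfl, rfl⟩
    by_cases he : (s(x, y) : Sym2 V) = s(D.e false, D.e true)
    · left
      rcases Sym2.eq_iff.1 he with ⟨rfl, rfl⟩ | ⟨rfl, rfl⟩
      · exact ⟨false, rfl, rfl⟩
      · exact ⟨true, rfl, rfl⟩
    right; right
    have hX : D.X x = D.X y := by
      by_contra hne
      rcases hxy with hxy | hxy
      · exact hg (h2.2.2 _ (hE hxy) (d_true_iff.2 hne))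
      · exact he (h3.2.2 _ (hE₂ hxy) (d_true_iff.2 hne))
    rcases hxy with hxy | hxy
    · have := d_true_iff.1 (ha _ (hE hxy))
      refine ⟨this, ?_⟩
      rw [px_apply, px_apply, hX]
      intro hh
      apply this
      cases hh1 : a x <;> cases hh2 : a y <;> cases hh3 : D.X y <;> simp_all
    · have := d_true_iff.1 (ha₂ _ (hE₂ hxy))
      refine ⟨?_, this⟩
      rw [px_apply, px_apply, hX] at this
      intro hh
      apply this
      rw [hh]

/-- The abstract main theorem. -/
theorem main [Finite V] (E : ℕ → Set (Sym2 V)) (hb : ∀ j, ∃ b, Prop2 (E j) b)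
    (h1 : ∀ j, (E (j + 1) \ E j).Subsingleton) (h2 : ∀ j, (E j \ E (j + 1)).Subsingleton) :
    ∃ C : ℕ → V → Col, ∀ j,
      Compat (fun x y => s(x, y) ∈ E j ∨ s(x, y) ∈ E (j + 1)) (C j) (C (j + 1)) := by
  have hstep : ∀ (j : ℕ) (p : Set (Sym2 V) × (V → Bool)), MinC (E j) p.1 ∧ Prop2 p.1 p.2 →
      ∃ p' : Set (Sym2 V) × (V → Bool), (MinC (E (j + 1)) p'.1 ∧ Prop2 p'.1 p'.2) ∧
      ∃ t, TrOK p.1 p'.1 p.2 p'.2 t := by
    rintro j ⟨E', a⟩ ⟨hm, ha⟩
    obtain ⟨b, hb'⟩ := hb (j + 1)
    obtain ⟨E'₂, a₂, h3, h4, h5⟩ := step hm ha hb' (h2 j) (h1 j)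
    exact ⟨(E'₂, a₂), ⟨h3, h4⟩, exists_trOK h5⟩
  choose! f hf using hstep
  obtain ⟨b, hb0⟩ := hb 0
  obtain ⟨E'0, a0, hm0, ha0⟩ := start hb0
  let seq : ℕ → Set (Sym2 V) × (V → Bool) := fun n => Nat.rec (E'0, a0) (fun j p => f j p) n
  have hseq : ∀ j, MinC (E j) (seq j).1 ∧ Prop2 (seq j).1 (seq j).2 := by
    intro j
    induction j with
    | zero => exact ⟨hm0, ha0⟩
    | succ j ih => exact (hf j (seq j) ih).1
  have htr : ∀ j, ∃ t, TrOK (seq j).1 (seq (j + 1)).1 (seq j).2 (seq (j + 1)).2 t :=
    fun j => (hf j (seq j) (hseq j)).2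
  choose t ht using htr
  have hrel : ∀ j D D', t j = some D → t (j + 1) = some D' → Rel D D' := by
    intro j D D' hD hD'
    have h3 := ht j
    have h4 := ht (j + 1)
    rw [hD] at h3
    rw [hD'] at h4
    exact rel_of_cut (hseq (j + 1)).1.prop.2 h3.2.2 h4.2.1
  have hcol : ∀ (j : ℕ) (C : V → Col), Inv (t j) (seq j).2 C →
      ∃ C', Compat (fun x y => s(x, y) ∈ E j ∨ s(x, y) ∈ E (j + 1)) C C' ∧
        Inv (t (j + 1)) (seq (j + 1)).2 C' :=
    fun j C hC => colour_step (ht j) (hseq j).1.prop.1 (hseq (j + 1)).1.prop.1 (hseq j).2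
      (hseq (j + 1)).2 (hrel j) hC
  choose! F hF using hcol
  obtain ⟨C0, hC0⟩ := exists_start (t 0) (seq 0).2
  let Cs : ℕ → V → Col := fun n => Nat.rec C0 (fun j C => F j C) n
  have hCs : ∀ j, Inv (t j) (seq j).2 (Cs j) := by
    intro j
    induction j with
    | zero => exact hC0
    | succ j ih => exact (hF j (Cs j) ih).2
  exact ⟨Cs, fun j => (hF j (Cs j) (hCs j)).1⟩

end Pool.Agent.Helper35.Temporal
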