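import Pool.Agent.Helper35.TemporalFlip

set_option autoImplicit false

namespace Pool.Agent.Helper35.Temporal

variable {V : Type*}

/-- Relation between consecutive flips. -/
def Rel (D D' : Flip V) : Prop :=
  (∃ c, ∀ x, D'.X x = xor (D.X x) c) ∨
  ∃ u v, (∀ x, D.X x = u → D'.X x ≠ v) ∧ (∀ i, D'.X (D.e i) ≠ v) ∧ (∀ i, D.X (D'.g i) ≠ u)

/-- The sets that may occur before an outgoing flip `D`. -/
def OutSet (D : Flip V) (v : Bool) (S : V → Bool) : Prop :=
  ((∀ x, D.X x = v → S x = false) ∧ S (D.e (!v)) = true ∧ ∀ i, S (D.g i) = false) ∨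
  (∃ p, (∀ x, S x = true ↔ x = p ∨ x = D.e v) ∧ D.X p ≠ v ∧ ∀ i, p ≠ D.g i) ∨
  (∃ q, (∀ x, S x = true ↔ x = q ∨ x = D.e (!v)) ∧ D.X q ≠ v)

open Classical in
/-- two-element set -/
noncomputable def pair (x y : V) : V → Bool := fun z => decide (z = x ∨ z = y)

lemma pair_iff (x y z : V) : pair x y z = true ↔ z = x ∨ z = y := by simp [pair]

lemma pair_false (x y z : V) : pair x y z = false ↔ z ≠ x ∧ z ≠ y := by simp [pair]

/-- side -/
def side (D : Flip V) (i : Bool) : V → Bool := fun x => D.X x == i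

lemma side_iff (D : Flip V) (i : Bool) (x : V) : side D i x = true ↔ D.X x = i := by simp [side]

lemma side_false (D : Flip V) (i : Bool) (x : V) : side D i x = false ↔ D.X x ≠ i := by
  simp [side]

lemma bne {a b : Bool} : a ≠ b ↔ a = !b := by cases a <;> cases b <;> simp

/-- from a side to the opposite side -/
lemma tr_O1_T1 (D : Flip V) (i : Bool) : TransOK D (side D i) (side D (!i)) where
  e1 := ⟨i, by simp [side, D.he]⟩
  e2 := ⟨i, by simp [side, D.he]⟩
  e3 j := by simp [side, D.he]
  g1 := ⟨!i, by simp [side, D.hg]⟩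
  g2 := ⟨!i, by simp [side, D.hg]⟩
  g3 j := by simp [side, D.hg]

lemma tr_O1_T2 (D : Flip V) (u : Bool) (W : V → Bool) (hWe : ∀ i, W (D.e i) = false)
    (hWg : W (D.g (!u)) = true) : TransOK D (side D u) W where
  e1 := ⟨u, by simp [side, D.he]⟩
  e2 := ⟨u, hWe u⟩
  e3 j := by simp [hWe]
  g1 := ⟨!u, hWg⟩
  g2 := ⟨!u, by simp [side, D.hg]⟩
  g3 j := by
    intro h
    simp only [side, D.hg, beq_iff_eq] at h
    rw [h]; exact hWg

lemma g_ne_e (D : Flip V) {i j : Bool} (h : D.g i = D.e j) : i = j := by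
  rw [← D.hg i, h, D.he]

lemma e_inj (D : Flip V) {i j : Bool} (h : D.e i = D.e j) : i = j := by
  rw [← D.he i, h, D.he]

lemma g_inj (D : Flip V) {i j : Bool} (h : D.g i = D.g j) : i = j := by
  rw [← D.hg i, h, D.hg]

lemma e_ne (D : Flip V) (i : Bool) : D.e i ≠ D.e (!i) := fun h => by
  have := e_inj D h; cases i <;> simp at this

lemma g_ne (D : Flip V) (i : Bool) : D.g i ≠ D.g (!i) := fun h => by
  have := g_inj D h; cases i <;> simp at this

/-- first pair: `{g u, s}` with `s` not an end of `e`; admissible from `S` when ... -/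
lemma tr_pair1 (D : Flip V) (S : V → Bool) (u : Bool) (s : V) (hs : ∀ i, s ≠ D.e i)
    (h1 : ∃ i, S (D.e i) = true) (h2 : ∃ i, S (D.g i) = false)
    (h3 : D.e u = D.g u → S (D.e (!u)) = true) (h4 : S (D.g u) = false) :
    TransOK D S (pair (D.g u) s) where
  e1 := h1
  e2 := ⟨!u, by
    rw [pair_false]
    refine ⟨fun h => ?_, (hs _).symm⟩
    have := g_ne_e D h.symm
    cases u <;> simp at this⟩
  e3 j := by
    rw [pair_iff]
    rintro (h | h)
    · have := g_ne_e D h.symm
      subst this
      exact h3 h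
    · exact absurd h.symm (hs j)
  g1 := ⟨u, by rw [pair_iff]; exact Or.inl rfl⟩
  g2 := h2
  g3 j := by
    intro h
    rw [pair_iff]
    left
    have : j ≠ u := fun hh => by rw [hh, h4] at h; exact absurd h (by decide)
    rw [bne] at this
    rw [this, Bool.not_not]

/-- `{g w, r}` with `r` on the side `w`. -/
lemma tr_pair2 (D : Flip V) (S : V → Bool) (w : Bool) (r : V) (hr : D.X r = w)
    (h1 : ∃ i, S (D.e i) = true) (h2 : ∃ i, S (D.g i) = false)
    (h3 : S (D.e (!w)) = true) (h4 : S (D.g w) = false) :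
    TransOK D S (pair (D.g w) r) where
  e1 := h1
  e2 := ⟨!w, by
    rw [pair_false]
    refine ⟨fun h => ?_, fun h => ?_⟩
    · have := g_ne_e D h.symm
      cases w <;> simp at this
    · rw [← h, D.he] at hr
      cases w <;> simp at hr⟩
  e3 j := by
    rw [pair_iff]
    rintro (h | h)
    · have := g_ne_e D h.symm
      subst this
      exact h3
    · rw [← h, D.he] at hr
      subst hr
      exact h3
  g1 := ⟨w, by rw [pair_iff]; exact Or.inl rfl⟩
  g2 := h2
  g3 j := by
    intro h
    rw [pair_iff]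
    left
    have : j ≠ w := fun hh => by rw [hh, h4] at h; exact absurd h (by decide)
    rw [bne] at this
    rw [this, Bool.not_not]

/-- transitions out of an `OutSet` to a side -/
lemma tr_out_T1 (D : Flip V) {v : Bool} {S : V → Bool} (h : OutSet D v S) :
    ∃ i, TransOK D S (side D i) := by
  rcases h with ⟨h1, h2, h3⟩ | ⟨p, h1, h2, h3⟩ | ⟨q, h1, h2⟩
  · exact ⟨v,
      { e1 := ⟨!v, h2⟩
        e2 := ⟨!v, by simp [side, D.he]⟩
        e3 := fun j hj => by
          rw [side_iff, D.he] at hj; rw [hj]; exact h2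
        g1 := ⟨v, by simp [side, D.hg]⟩
        g2 := ⟨v, h3 v⟩
        g3 := fun j hj => by rw [h3] at hj; exact absurd hj (by decide) }⟩
  · have hg : S (D.g (!v)) = false := by
      rw [Bool.eq_false_iff, ne_eq, h1]
      rintro (h | h)
      · exact h3 _ h.symm
      · have := g_ne_e D h; cases v <;> simp at this
    exact ⟨!v,
      { e1 := ⟨v, (h1 _).2 (Or.inr rfl)⟩
        e2 := ⟨v, by simp [side, D.he]⟩
        e3 := fun j hj => by
          rw [side_iff, D.he] at hj; rw [hj, Bool.not_not]; exact (h1 _).2 (Or.inr rfl)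
        g1 := ⟨!v, by simp [side, D.hg]⟩
        g2 := ⟨!v, hg⟩
        g3 := fun j hj => by
          have : j ≠ !v := fun hh => by rw [hh, hg] at hj; exact absurd hj (by decide)
          rw [bne, Bool.not_not] at this
          rw [this, side_iff, D.hg] }⟩
  · have hg : S (D.g v) = false := by
      rw [Bool.eq_false_iff, ne_eq, h1]
      rintro (h | h)
      · exact h2 (h ▸ D.hg v)
      · have := g_ne_e D h; cases v <;> simp at this
    exact ⟨v,
      { e1 := ⟨!v, (h1 _).2 (Or.inr rfl)⟩
        e2 := ⟨!v, by simp [side, D.he]⟩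
        e3 := fun j hj => by
          rw [side_iff, D.he] at hj; rw [hj]; exact (h1 _).2 (Or.inr rfl)
        g1 := ⟨v, by simp [side, D.hg]⟩
        g2 := ⟨v, hg⟩
        g3 := fun j hj => by
          have : j ≠ v := fun hh => by rw [hh, hg] at hj; exact absurd hj (by decide)
          rw [bne] at this
          rw [this, Bool.not_not, side_iff, D.hg] }⟩

/-- transitions out of an `OutSet` to a set `W` disjoint from a side `u` -/
lemma tr_out_T2 (D : Flip V) {v : Bool} {S : V → Bool} (h : OutSet D v S) (u : Bool)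
    (W : V → Bool) (hWe : ∀ i, W (D.e i) = false) (hWg : W (D.g (!u)) = true)
    (s : V) (hs : W s = true) :
    TransOK D S W ∨ TransOK D S (pair (D.g u) s) := by
  have hse : ∀ i, s ≠ D.e i := fun i hh => by
    rw [hh, hWe] at hs; exact absurd hs (by decide)
  rcases h with ⟨h1, h2, h3⟩ | ⟨p, h1, h2, h3⟩ | ⟨q, h1, h2⟩
  · exact Or.inl
      { e1 := ⟨!v, h2⟩
        e2 := ⟨v, hWe v⟩
        e3 := fun j hj => by rw [hWe] at hj; exact absurd hj (by decide)
        g1 := ⟨!u, hWg⟩
        g2 := ⟨v, h3 v⟩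
        g3 := fun j hj => by rw [h3] at hj; exact absurd hj (by decide) }
  · have hg : S (D.g (!v)) = false := by
      rw [Bool.eq_false_iff, ne_eq, h1]
      rintro (h | h)
      · exact h3 _ h.symm
      · have := g_ne_e D h; cases v <;> simp at this
    refine Or.inl
      { e1 := ⟨v, (h1 _).2 (Or.inr rfl)⟩
        e2 := ⟨v, hWe v⟩
        e3 := fun j hj => by rw [hWe] at hj; exact absurd hj (by decide)
        g1 := ⟨!u, hWg⟩
        g2 := ⟨!v, hg⟩
        g3 := fun j hj => ?_ }
    rcases (h1 _).1 hj with h | h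
    · exact absurd h.symm (h3 j)
    · have hjv := g_ne_e D h
      subst hjv
      by_cases huv : u = j
      · rw [← huv]; exact hWg
      · exfalso
        have : (!u) = j := by cases u <;> cases j <;> simp_all
        rw [this, h, hWe] at hWg
        exact absurd hWg (by decide)
  · have hg : S (D.g v) = false := by
      rw [Bool.eq_false_iff, ne_eq, h1]
      rintro (h | h)
      · exact h2 (h ▸ D.hg v)
      · have := g_ne_e D h; cases v <;> simp at this
    by_cases huv : u = v
    · subst huv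
      right
      exact tr_pair1 D S u s hse ⟨!u, (h1 _).2 (Or.inr rfl)⟩ ⟨u, hg⟩
        (fun _ => (h1 _).2 (Or.inr rfl)) hg
    · left
      have huv' : (!u) = v := by cases u <;> cases v <;> simp_all
      rw [huv'] at hWg
      exact
      { e1 := ⟨!v, (h1 _).2 (Or.inr rfl)⟩
        e2 := ⟨v, hWe v⟩
        e3 := fun j hj => by rw [hWe] at hj; exact absurd hj (by decide)
        g1 := ⟨v, hWg⟩
        g2 := ⟨v, hg⟩
        g3 := fun j hj => by
          have : j ≠ v := fun hh => by rw [hh, hg] at hj; exact absurd hj (by decide)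
          rw [bne] at this
          rw [this, Bool.not_not]
          exact hWg }

/-- transitions out of an `OutSet` to pairs -/
lemma tr_out_T3 (D : Flip V) {v : Bool} {S : V → Bool} (h : OutSet D v S) (u : Bool)
    (s r : V) (hs : ∀ i, s ≠ D.e i) (hr : D.X r ≠ u) :
    TransOK D S (pair (D.g u) s) ∨ TransOK D S (pair (D.g (!u)) r) := by
  rw [bne] at hr
  rcases h with ⟨h1, h2, h3⟩ | ⟨p, h1, h2, h3⟩ | ⟨q, h1, h2⟩
  · left
    refine tr_pair1 D S u s hs ⟨!v, h2⟩ ⟨v, h3 v⟩ (fun heg => ?_) (h3 u)
    by_cases huv : u = v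
    · rw [huv]; exact h2
    · exfalso
      have : (!v) = u := by cases u <;> cases v <;> simp_all
      rw [this, heg, h3] at h2
      exact absurd h2 (by decide)
  · have hg : S (D.g (!v)) = false := by
      rw [Bool.eq_false_iff, ne_eq, h1]
      rintro (h | h)
      · exact h3 _ h.symm
      · have := g_ne_e D h; cases v <;> simp at this
    have hev : S (D.e v) = true := (h1 _).2 (Or.inr rfl)
    by_cases huv : u = v
    · subst huv
      right
      exact tr_pair2 D S (!u) r hr ⟨u, hev⟩ ⟨!u, hg⟩ (by rw [Bool.not_not]; exact hev) hg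
    · left
      have : u = !v := by cases u <;> cases v <;> simp_all
      subst this
      exact tr_pair1 D S (!v) s hs ⟨v, hev⟩ ⟨!v, hg⟩ (fun _ => by rw [Bool.not_not]; exact hev) hg
  · have hg : S (D.g v) = false := by
      rw [Bool.eq_false_iff, ne_eq, h1]
      rintro (h | h)
      · exact h2 (h ▸ D.hg v)
      · have := g_ne_e D h; cases v <;> simp at this
    have hev : S (D.e (!v)) = true := (h1 _).2 (Or.inr rfl)
    by_cases huv : u = v
    · subst huv
      left
      exact tr_pair1 D S u s hs ⟨!u, hev⟩ ⟨u, hg⟩ (fun _ => hev) hg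
    · right
      have : (!u) = v := by cases u <;> cases v <;> simp_all
      rw [this] at hr ⊢
      exact tr_pair2 D S v r hr ⟨!v, hev⟩ ⟨v, hg⟩ hev hg

end Pool.Agent.Helper35.Temporal
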