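import Mathlib

set_option autoImplicit false

namespace Pool.Agent.Helper35.Temporal

variable {V : Type*}

/-- `d X e`: does `X` separate the two ends of `e`? -/
def d (X : V → Bool) : Sym2 V → Bool :=
  Sym2.lift ⟨fun x y => xor (X x) (X y), fun _ _ => Bool.xor_comm _ _⟩

@[simp] lemma d_mk (X : V → Bool) (x y : V) : d X s(x, y) = xor (X x) (X y) := rfl

/-- Pointwise exclusive or. -/
def px (X Y : V → Bool) : V → Bool := fun v => xor (X v) (Y v)

@[simp] lemma px_apply (X Y : V → Bool) (v : V) : px X Y v = xor (X v) (Y v) := rfl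

lemma d_px (X Y : V → Bool) (e : Sym2 V) : d (px X Y) e = xor (d X e) (d Y e) := by
  induction e using Sym2.ind with
  | _ x y => simp only [d_mk, px_apply]; cases X x <;> cases X y <;> cases Y x <;> cases Y y <;> rfl

/-- `E` is connected. -/
def Conn (E : Set (Sym2 V)) : Prop :=
  ∀ X : V → Bool, (∀ e ∈ E, d X e = false) → ∃ c, ∀ v, X v = c

/-- `a` is a proper 2-colouring of `E`. -/
def Prop2 (E : Set (Sym2 V)) (a : V → Bool) : Prop := ∀ e ∈ E, d a e = true

/-- `g` is the only edge of `E` crossing `X`. -/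
def Cut (E : Set (Sym2 V)) (X : V → Bool) (g : Sym2 V) : Prop :=
  g ∈ E ∧ d X g = true ∧ ∀ e ∈ E, d X e = true → e = g

lemma Conn.mono {E F : Set (Sym2 V)} (h : E ⊆ F) (hE : Conn E) : Conn F :=
  fun X hX => hE X fun e he => hX e (h he)

/-- minimal connected superset. -/
def MinC (E E' : Set (Sym2 V)) : Prop := Minimal (fun F => E ⊆ F ∧ Conn F) E'

lemma d_const {X : V → Bool} {c : Bool} (h : ∀ v, X v = c) (e : Sym2 V) : d X e = false := by
  induction e using Sym2.ind with
  | _ x y => simp [h]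

lemma MinC.coloop {E E' : Set (Sym2 V)} (h : MinC E E') {g : Sym2 V} (hg : g ∈ E') (hgE : g ∉ E) :
    ∃ X, Cut E' X g := by
  have h1 : ¬ Conn (E' \ {g}) := by
    intro hc
    have h2 : E ⊆ E' \ {g} := fun x hx => ⟨h.prop.1 hx, fun hxg => hgE (by simpa using hxg ▸ hx)⟩
    have h3 := h.le_of_le (y := E' \ {g}) ⟨h2, hc⟩ Set.diff_subset
    exact (h3 hg).2 rfl
  unfold Conn at h1
  push Not at h1
  obtain ⟨X, hX, hXc⟩ := h1
  have h4 : d X g = true := by
    by_contra hne
    rw [Bool.not_eq_true] at hne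
    obtain ⟨c, hc⟩ := h.prop.2 X (fun e he => by
      by_cases heg : e = g
      · rw [heg]; exact hne
      · exact hX e ⟨he, heg⟩)
    obtain ⟨v, hv⟩ := hXc c
    exact hv (hc v)
  refine ⟨X, hg, h4, fun e he hde => ?_⟩
  by_contra hne
  have := hX e ⟨he, hne⟩
  rw [this] at hde
  exact absurd hde (by decide)

lemma exists_minC [Finite V] {E F : Set (Sym2 V)} (h : E ⊆ F) (hF : Conn F) :
    ∃ E', E' ⊆ F ∧ MinC E E' := by
  obtain ⟨m, hm, hm2⟩ := exists_minimal_le_of_wellFoundedLT (fun G => E ⊆ G ∧ Conn G) F ⟨h, hF⟩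
  exact ⟨m, hm, hm2⟩

/-- The key step: if the new edge is monochromatic there is a useful coloop. -/
lemma key [Finite V] {E E' E₂ : Set (Sym2 V)} {a b : V → Bool} {e : Sym2 V} (h : MinC E E')
    (ha : Prop2 E' a) (hb : Prop2 E₂ b) (he : e ∈ E₂) (hae : d a e = false)
    (hdiff : (E \ E₂).Subsingleton) :
    ∃ X g, Cut E' X g ∧ g ∉ E₂ ∧ d X e = true := by
  by_contra hcon
  push Not at hcon
  obtain ⟨D, hD⟩ := exists_minimalFor_of_wellFoundedLT
    (fun D : V → Bool => d D e = true ∧ ∀ e' ∈ E', e' ∈ E₂ → d D e' = false)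
    (fun D => ({g | g ∈ E' ∧ d D g = true} : Set (Sym2 V)))
    ⟨px a b, by
      refine ⟨by rw [d_px, hae, hb e he]; rfl, fun e' h1 h2 => ?_⟩
      rw [d_px, ha e' h1, hb e' h2]; rfl⟩
  obtain ⟨⟨hD1, hD2⟩, hD3⟩ := hD
  -- crossing edges of `D` are not coloops
  have hnc : ∀ g ∈ E', d D g = true → ¬ ∃ X, Cut E' X g := by
    rintro g hg hDg ⟨X, hX⟩
    have hgE₂ : g ∉ E₂ := fun hh => by
      have := hD2 g hg hh
      rw [hDg] at this
      exact absurd this (by decide)
    have hXe : d X e = false := by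
      have := hcon X g hX hgE₂
      simpa using this
    have hsub := hD3 (j := px D X) ⟨by rw [d_px, hD1, hXe]; rfl, fun e' h1 h2 => by
      rw [d_px, hD2 e' h1 h2]
      have : d X e' = false := by
        by_contra hne
        rw [Bool.not_eq_false] at hne
        have := hX.2.2 e' h1 hne
        exact hgE₂ (this ▸ h2)
      rw [this]; rfl⟩ (by
        rintro e' ⟨h1, h2⟩
        refine ⟨h1, ?_⟩
        rw [d_px] at h2
        by_cases hh : e' = g
        · rw [hh]; exact hDg
        · have : d X e' = false := by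
            by_contra hne
            rw [Bool.not_eq_false] at hne
            exact hh (hX.2.2 e' h1 hne)
          rw [this] at h2
          simpa using h2)
    have := (hsub ⟨hg, hDg⟩).2
    rw [d_px, hDg, hX.2.1] at this
    exact absurd this (by decide)
  -- there is a crossing edge
  have hex : ∃ g ∈ E', d D g = true := by
    by_contra hne
    push Not at hne
    obtain ⟨c, hc⟩ := h.prop.2 D (fun e' he' => by simpa using hne e' he')
    rw [d_const hc] at hD1
    exact absurd hD1 (by decide)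
  have hin : ∀ g ∈ E', d D g = true → g ∈ E \ E₂ := by
    intro g hg hDg
    refine ⟨by_contra fun hh => hnc g hg hDg (h.coloop hg hh), fun hh => ?_⟩
    have := hD2 g hg hh
    rw [hDg] at this
    exact absurd this (by decide)
  obtain ⟨g, hg, hDg⟩ := hex
  exact hnc g hg hDg ⟨D, hg, hDg, fun e' he' hde' => hdiff (hin e' he' hde') (hin g hg hDg)⟩

/-- One step of the construction. -/
lemma step [Finite V] {E E' E₂ : Set (Sym2 V)} {a b : V → Bool} (h : MinC E E')
    (ha : Prop2 E' a) (hb : Prop2 E₂ b) (hdiff : (E \ E₂).Subsingleton)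
    (hdiff2 : (E₂ \ E).Subsingleton) :
    ∃ E'₂ a₂, MinC E₂ E'₂ ∧ Prop2 E'₂ a₂ ∧
      (a₂ = a ∨ ∃ X g e, a₂ = px a X ∧ Cut E' X g ∧ Cut E'₂ X e) := by
  by_cases h1 : E₂ ⊆ E'
  · obtain ⟨F, hF1, hF2⟩ := exists_minC h1 h.prop.2
    exact ⟨F, a, hF2, fun e he => ha e (hF1 he), Or.inl rfl⟩
  rw [Set.not_subset] at h1
  obtain ⟨e, he, heE'⟩ := h1
  have hE₂ : ∀ e' ∈ E₂, e' ≠ e → e' ∈ E' ∧ e' ∈ E := by
    intro e' he' hne
    have : e' ∈ E := by
      by_contra hh
      exact hne (hdiff2 ⟨he', hh⟩ ⟨he, fun hh2 => heE' (h.prop.1 hh2)⟩)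
    exact ⟨h.prop.1 this, this⟩
  by_cases h2 : d a e = true
  · have hs : E₂ ⊆ insert e E' := by
      intro e' he'
      by_cases hh : e' = e
      · exact Or.inl hh
      · exact Or.inr (hE₂ e' he' hh).1
    obtain ⟨F, hF1, hF2⟩ := exists_minC hs (h.prop.2.mono (Set.subset_insert _ _))
    refine ⟨F, a, hF2, fun e' he' => ?_, Or.inl rfl⟩
    rcases hF1 he' with hh | hh
    · rw [hh]; exact h2
    · exact ha e' hh
  · rw [Bool.not_eq_true] at h2
    obtain ⟨X, g, hcut, hgE₂, hXe⟩ := key h ha hb he h2 hdiff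
    have hXne : ∀ e' ∈ E', e' ≠ g → d X e' = false := by
      intro e' he' hne
      by_contra hh
      rw [Bool.not_eq_false] at hh
      exact hne (hcut.2.2 e' he' hh)
    have hs : E₂ ⊆ insert e (E' \ {g}) := by
      intro e' he'
      by_cases hh : e' = e
      · exact Or.inl hh
      · refine Or.inr ⟨(hE₂ e' he' hh).1, fun hg => hgE₂ ?_⟩
        rw [Set.mem_singleton_iff] at hg
        exact hg ▸ he'
    have hconn : Conn (insert e (E' \ {g})) := by
      intro Y hY
      by_cases hYg : d Y g = true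
      · obtain ⟨c, hc⟩ := h.prop.2 (px X Y) (fun e' he' => by
          rw [d_px]
          by_cases hh : e' = g
          · rw [hh, hYg, hcut.2.1]; rfl
          · rw [hXne e' he' hh, hY e' (Or.inr ⟨he', hh⟩)]; rfl)
        have h5 := d_const hc e
        rw [d_px, hXe, hY e (Or.inl rfl)] at h5
        exact absurd h5 (by decide)
      · rw [Bool.not_eq_true] at hYg
        exact h.prop.2 Y (fun e' he' => by
          by_cases hh : e' = g
          · rw [hh]; exact hYg
          · exact hY e' (Or.inr ⟨he', hh⟩))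
    obtain ⟨F, hF1, hF2⟩ := exists_minC hs hconn
    refine ⟨F, px a X, hF2, fun e' he' => ?_, Or.inr ⟨X, g, e, rfl, hcut, hF2.prop.1 he, hXe,
      fun e' he' hde' => ?_⟩⟩
    · rcases hF1 he' with hh | hh
      · rw [hh, d_px, h2, hXe]; rfl
      · rw [d_px, ha e' hh.1, hXne e' hh.1 hh.2]; rfl
    · rcases hF1 he' with hh | hh
      · exact hh
      · rw [hXne e' hh.1 hh.2] at hde'
        exact absurd hde' (by decide)

/-- The start of the construction. -/
lemma start [Finite V] {E : Set (Sym2 V)} {b : V → Bool} (hb : Prop2 E b) :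
    ∃ E' a, MinC E E' ∧ Prop2 E' a := by
  by_cases h : ∃ a, Prop2 E a ∧ ∃ x y, a x ≠ a y
  · obtain ⟨a, ha, x, y, hxy⟩ := h
    have hconn : Conn {e | d a e = true} := by
      intro X hX
      have hX' : ∀ u v, a u ≠ a v → X u = X v := by
        intro u v huv
        have := hX s(u, v) (by
          simp only [Set.mem_setOf_eq, d_mk]
          cases hu : a u <;> cases hv : a v <;> simp_all)
        simpa using this
      refine ⟨X x, fun v => ?_⟩
      by_cases hvx : a v = a x
      · rw [hX' v y (hvx ▸ hxy), hX' x y hxy]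
      · exact hX' v x hvx
    obtain ⟨F, hF1, hF2⟩ := exists_minC (E := E) (fun e he => ha e he) hconn
    exact ⟨F, a, hF2, fun e he => hF1 he⟩
  · push Not at h
    have hE : E ⊆ ∅ := by
      intro e he
      exfalso
      have h1 := hb e he
      induction e using Sym2.ind with
      | _ x y =>
        have := h b hb x y
        simp [this] at h1
    have hconn : Conn (∅ : Set (Sym2 V)) := by
      intro X _
      have hX := h X (fun e he => (hE he).elim)
      by_cases hne : Nonempty V
      · obtain ⟨v⟩ := hne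
        exact ⟨X v, fun w => hX w v⟩
      · exact ⟨false, fun w => (hne ⟨w⟩).elim⟩
    obtain ⟨F, hF1, hF2⟩ := exists_minC hE hconn
    exact ⟨F, b, hF2, fun e he => (hF1 he).elim⟩

end Pool.Agent.Helper35.Temporal
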